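import Pool.Agent.H83.EX.Fin

/-!
Lower bound for the number of starting values whose trajectory grows by a factor before it falls
below a multiple of the starting value.
-/

namespace Pool.Agent.H12.EU

open Pool.Agent.H83.EX Finset

/-- Growth by the factor `L` along the trajectory of `n` before it falls below `R * n`. -/
def BigR (L R : ℝ) (n : ℕ) : Prop :=
  ∃ i : ℕ, L * n ≤ (C^[i] n : ℝ) ∧ ∀ j : ℕ, j ≤ i → R * n ≤ (C^[j] n : ℝ)

open Classical in
/-- The number of `s < T` with growth by `L` before the barrier `R` from `A + 6 Q s`. -/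
noncomputable def NL (A Q : ℕ) (L R : ℝ) (T : ℕ) : ℕ :=
  ((range T).filter (fun s => BigR L R (A + 6 * Q * s))).card

lemma bigR_of_le_one {L R : ℝ} (h : L ≤ 1) (hR : R ≤ 1) (n : ℕ) : BigR L R n := by
  have hn : (0 : ℝ) ≤ n := Nat.cast_nonneg n
  refine ⟨0, ?_, ?_⟩
  · simp only [Function.iterate_zero, id_eq]
    nlinarith
  · intro j hj
    have : j = 0 := by omega
    subst this
    simp only [Function.iterate_zero, id_eq]
    nlinarith

lemma bigR_step {L L' R R' : ℝ} {n m : ℕ} (hC : C n = m) (hR : R ≤ 1) (h : L * n ≤ L' * m)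
    (h' : R * n ≤ R' * m) (hb : BigR L' R' m) : BigR L R n := by
  obtain ⟨i, hi, hj⟩ := hb
  refine ⟨i + 1, ?_, ?_⟩
  · rw [Function.iterate_succ_apply, hC]
    exact h.trans hi
  · intro j hj1
    rcases j with _ | j
    · simp only [Function.iterate_zero, id_eq]
      have : (0 : ℝ) ≤ n := Nat.cast_nonneg n
      nlinarith
    · rw [Function.iterate_succ_apply, hC]
      exact h'.trans (hj j (by omega))

lemma bigR_even {L R : ℝ} (hR : R ≤ 1) {n m : ℕ} (hn : n = 2 * m)
    (hb : BigR (2 * L) (2 * R) m) : BigR L R n := by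
  have hC : C n = m := by
    unfold C
    rw [if_pos (by omega)]
    omega
  refine bigR_step hC hR ?_ ?_ hb
  · subst hn
    push_cast
    nlinarith
  · subst hn
    push_cast
    nlinarith

lemma bigR_three {L R : ℝ} (hR : R ≤ 1) {n m : ℕ} (hn : n = 3 * m) (hodd : n % 2 = 1)
    (hb : BigR (3 * L) (3 * R) m) : BigR L R n := by
  have hC : C n = m := by
    unfold C
    rw [if_neg (by omega), if_pos (by omega)]
    omega
  refine bigR_step hC hR ?_ ?_ hb
  · subst hn
    push_cast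
    nlinarith
  · subst hn
    push_cast
    nlinarith

lemma bigR_five {L R : ℝ} (hL : 0 ≤ L) (hR0 : 0 ≤ R) (hR : R ≤ 1) {n m : ℕ} (hn : m = 5 * n + 1)
    (h2 : n % 2 = 1) (h3 : n % 3 ≠ 0) (hb : BigR (L / 5) (R / 5) m) : BigR L R n := by
  have hC : C n = m := by
    unfold C
    rw [if_neg (by omega), if_neg h3, hn]
  refine bigR_step hC hR ?_ ?_ hb
  · subst hn
    push_cast
    nlinarith
  · subst hn
    push_cast
    nlinarith

lemma NL_even (A Q : ℕ) (L R : ℝ) (hR : R ≤ 1) (T : ℕ) (hA : A % 2 = 0) :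
    NL (A / 2) Q (2 * L) (2 * R) (T / 2) + NL (A / 2 + 3 * Q) Q (2 * L) (2 * R) (T / 2) ≤
      NL A Q L R T := by
  classical
  have h := card_split 2 T (by norm_num)
    (fun j s => BigR (2 * L) (2 * R) (A / 2 + 3 * Q * j + 6 * Q * s))
    (fun s => BigR L R (A + 6 * Q * s))
    (by
      intro j hj s hb
      refine bigR_even hR ?_ hb
      have : A = 2 * (A / 2) := by omega
      calc A + 6 * Q * (2 * s + j) = 2 * (A / 2) + 6 * Q * (2 * s + j) := by rw [← this]
        _ = 2 * (A / 2 + 3 * Q * j + 6 * Q * s) := by ring)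
  rw [Finset.sum_range_succ, Finset.sum_range_one] at h
  simp only [Nat.mul_zero, Nat.add_zero, Nat.mul_one] at h
  unfold NL
  refine le_trans (le_of_eq ?_) (h.trans (le_of_eq ?_))
  · rfl
  · rfl

lemma NL_three (A Q : ℕ) (L R : ℝ) (hR : R ≤ 1) (T : ℕ) (hA : A % 6 = 3) :
    NL (A / 3) Q (3 * L) (3 * R) (T / 3) + NL (A / 3 + 2 * Q) Q (3 * L) (3 * R) (T / 3) +
      NL (A / 3 + 4 * Q) Q (3 * L) (3 * R) (T / 3) ≤ NL A Q L R T := by
  classical
  have h := card_split 3 T (by norm_num)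
    (fun j s => BigR (3 * L) (3 * R) (A / 3 + 2 * Q * j + 6 * Q * s))
    (fun s => BigR L R (A + 6 * Q * s))
    (by
      intro j hj s hb
      refine bigR_three hR ?_ ?_ hb
      · have : A = 3 * (A / 3) := by omega
        calc A + 6 * Q * (3 * s + j) = 3 * (A / 3) + 6 * Q * (3 * s + j) := by rw [← this]
          _ = 3 * (A / 3 + 2 * Q * j + 6 * Q * s) := by ring
      · have : A + 6 * Q * (3 * s + j) = A + 2 * (3 * Q * (3 * s + j)) := by ring
        rw [this]
        omega)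
  rw [Finset.sum_range_succ, Finset.sum_range_succ, Finset.sum_range_one] at h
  have e : ∀ x : ℕ, 2 * x * 2 = 4 * x := fun x => by ring
  simp only [Nat.mul_zero, Nat.add_zero, Nat.mul_one, e] at h
  unfold NL
  refine le_trans (le_of_eq ?_) (h.trans (le_of_eq ?_))
  · rfl
  · rfl

lemma NL_five (A Q : ℕ) (L R : ℝ) (hL : 0 ≤ L) (hR0 : 0 ≤ R) (hR : R ≤ 1) (T : ℕ)
    (hA : A % 6 = 1 ∨ A % 6 = 5) :
    NL (5 * A + 1) (5 * Q) (L / 5) (R / 5) T ≤ NL A Q L R T := by
  classical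
  unfold NL
  refine Finset.card_le_card ?_
  intro s hs
  rw [Finset.mem_filter] at hs ⊢
  refine ⟨hs.1, bigR_five hL hR0 hR (m := 5 * A + 1 + 6 * (5 * Q) * s) (by ring) ?_ ?_ hs.2⟩
  · have : A + 6 * Q * s = A + 2 * (3 * Q * s) := by ring
    rw [this]
    omega
  · have : A + 6 * Q * s = A + 3 * (2 * Q * s) := by ring
    rw [this]
    omega

lemma NL_all (A Q : ℕ) (L R : ℝ) (hL : L ≤ 1) (hR : R ≤ 1) (T : ℕ) : NL A Q L R T = T := by
  classical
  unfold NL
  rw [Finset.filter_true_of_mem (fun s _ => bigR_of_le_one hL hR _)]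
  exact Finset.card_range T

/-- The comparison function with the barrier term. -/
noncomputable def K (θ α β B v u L R T : ℝ) : ℝ :=
  H θ α β B v u L T - T * (R / L) ^ θ

lemma mul_le_of_le_div {k T : ℕ} {w : ℝ} (hw : 0 ≤ w) :
    k * (((T / k : ℕ) : ℝ) * w) ≤ T * w := by
  have h1 : k * (T / k) ≤ T := Nat.mul_div_le T k
  have h2 : ((k * (T / k) : ℕ) : ℝ) ≤ (T : ℝ) := by exact_mod_cast h1
  push_cast at h2
  nlinarith

theorem mainL {θ α β B η : ℝ} {v u : ℕ → ℝ} (hG : Good θ α β B η v u) :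
    ∀ (T A Q : ℕ) (L R : ℝ), Q % 2 = 1 → Q % 3 ≠ 0 → 1 / 5 ≤ L → 0 < R →
      K θ α β B (v (A % 6)) (u (A % 6)) L R T ≤ NL A Q L R T := by
  have hθ : 0 ≤ θ := hG.hα.trans hG.hαθ
  have h5θ : 1 ≤ (5 : ℝ) ^ θ := Real.one_le_rpow (by norm_num) hθ
  have vle1 : ∀ r, r < 6 → v r ≤ 1 := by
    intro r hr
    have h1 := hG.vle r hr
    have h2 := hG.vpos r hr
    nlinarith
  have base : ∀ (T A Q : ℕ) (L R : ℝ), 1 / 5 ≤ L → 0 < R → (L ≤ 1 ∨ 1 < R) →
      K θ α β B (v (A % 6)) (u (A % 6)) L R T ≤ NL A Q L R T := by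
    intro T A Q L R h1 hR h2
    have hr : A % 6 < 6 := Nat.mod_lt _ (by norm_num)
    have hL0 : 0 < L := by linarith
    have hT0 : (0 : ℝ) ≤ T := Nat.cast_nonneg T
    have hK : K θ α β B (v (A % 6)) (u (A % 6)) L R T ≤ H θ α β B (v (A % 6)) (u (A % 6)) L T := by
      unfold K
      have : 0 ≤ (T : ℝ) * (R / L) ^ θ := by positivity
      linarith
    by_cases hR1 : R ≤ 1
    · rcases h2 with h2 | h2
      · rw [NL_all A Q L R h2 hR1 T]
        exact hK.trans (H_le hG.hB (hG.upos _ hr).le (Nat.cast_nonneg T) h1 hθ (hG.vpos _ hr).le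
          (hG.vle _ hr))
      · exact absurd hR1 (not_le.mpr h2)
    · have hR1' : 1 < R := not_le.mp hR1
      refine le_trans ?_ (Nat.cast_nonneg _)
      unfold K H
      have e1 : (R / L) ^ θ = R ^ θ * L ^ (-θ) := by
        rw [Real.div_rpow hR.le hL0.le, Real.rpow_neg hL0.le, div_eq_mul_inv]
      have h3 : 1 ≤ R ^ θ := Real.one_le_rpow hR1'.le hθ
      have h4 : 0 ≤ L ^ (-θ) := Real.rpow_nonneg hL0.le _
      have h5 : v (A % 6) * T * L ^ (-θ) ≤ T * (R / L) ^ θ := by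
        rw [e1]
        have h6 := vle1 _ hr
        have h7 : v (A % 6) * T ≤ R ^ θ * T := mul_le_mul_of_nonneg_right (h6.trans h3) hT0
        calc v (A % 6) * T * L ^ (-θ) ≤ R ^ θ * T * L ^ (-θ) := mul_le_mul_of_nonneg_right h7 h4
          _ = T * (R ^ θ * L ^ (-θ)) := by ring
      have h8 : 0 ≤ B * u (A % 6) * (T : ℝ) ^ (1 - β) * L ^ (-α) := by
        have h9 := hG.hB
        have h10 := (hG.upos _ hr).le
        positivity
      linarith
  intro T
  induction T using Nat.strong_induction_on with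
  | _ T ih =>
    rcases Nat.eq_zero_or_pos T with hT | hT
    · subst hT
      intro A Q L R _ _ _ _
      unfold K
      rw [Nat.cast_zero, H_zero hG.hβ]
      simp
    · have key : ∀ (A Q : ℕ) (L R : ℝ), Q % 2 = 1 → Q % 3 ≠ 0 → 1 ≤ L → 0 < R → R ≤ 1 →
          A % 6 ≠ 1 → A % 6 ≠ 5 →
          K θ α β B (v (A % 6)) (u (A % 6)) L R T ≤ NL A Q L R T := by
        intro A Q L R hQ2 hQ3 hL hR0 hR1 h1 h5
        have hr : A % 6 < 6 := Nat.mod_lt _ (by norm_num)
        have hL0 : 0 < L := by linarith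
        have hT2 : T / 2 < T := Nat.div_lt_self hT (by norm_num)
        have hT3 : T / 3 < T := Nat.div_lt_self hT (by norm_num)
        have hcase : A % 6 = 0 ∨ A % 6 = 2 ∨ A % 6 = 3 ∨ A % 6 = 4 := by omega
        have hw : 0 ≤ (R / L) ^ θ := Real.rpow_nonneg (by positivity) _
        have eR2 : 2 * R / (2 * L) = R / L := by field_simp
        have eR3 : 3 * R / (3 * L) = R / L := by field_simp
        have ev : A % 2 = 0 → ∀ i j : ℕ, ((A / 2) % 6 = i ∧ (A / 2 + 3 * Q) % 6 = j ∨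
            (A / 2) % 6 = j ∧ (A / 2 + 3 * Q) % 6 = i) → i < 6 → j < 6 →
            v (A % 6) = (2 : ℝ) ^ (-θ) * (v i + v j) / 2 →
            (2 : ℝ) ^ (β - α) * (u i + u j) / 2 + η ≤ u (A % 6) →
            K θ α β B (v (A % 6)) (u (A % 6)) L R T ≤ NL A Q L R T := by
          intro hA2 i j hij hi hj hv hu
          have hn := NL_even A Q L R hR1 T hA2
          have hnr : (NL (A / 2) Q (2 * L) (2 * R) (T / 2) : ℝ) +
              (NL (A / 2 + 3 * Q) Q (2 * L) (2 * R) (T / 2) : ℝ) ≤ (NL A Q L R T : ℝ) := by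
            exact_mod_cast hn
          have i1 := ih (T / 2) hT2 (A / 2) Q (2 * L) (2 * R) hQ2 hQ3 (by linarith) (by linarith)
          have i2 := ih (T / 2) hT2 (A / 2 + 3 * Q) Q (2 * L) (2 * R) hQ2 hQ3 (by linarith)
            (by linarith)
          have hst := step (k := 2) (T := T) (v := v (A % 6)) (u := u (A % 6))
            (VS := v i + v j) (US := u i + u j) hG.hαθ hG.hβ0 hG.hβ hG.hB hG.hBη
            (Or.inl rfl) hT hL (hG.vpos _ hr).le (vle1 _ hr)
            (add_nonneg (hG.upos i hi).le (hG.upos j hj).le)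
            (by push_cast; exact hv) (by push_cast; exact hu)
          rw [H_add] at hst
          have hm := mul_le_of_le_div (k := 2) (T := T) hw
          unfold K at i1 i2 ⊢
          rw [eR2] at i1 i2
          push_cast at hst hm
          rcases hij with ⟨e1, e2⟩ | ⟨e1, e2⟩
          · rw [e1] at i1
            rw [e2] at i2
            push_cast at i1 i2
            linarith
          · rw [e1] at i1
            rw [e2] at i2
            push_cast at i1 i2
            linarith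
        rcases hcase with h | h | h | h
        · refine ev (by omega) 0 3 (by omega) (by norm_num) (by norm_num) ?_ ?_
          · rw [h]; exact hG.v0
          · rw [h]; exact hG.u0
        · refine ev (by omega) 1 4 (by omega) (by norm_num) (by norm_num) ?_ ?_
          · rw [h]; exact hG.v2
          · rw [h]; exact hG.u2
        · have hn := NL_three A Q L R hR1 T h
          have hnr : (NL (A / 3) Q (3 * L) (3 * R) (T / 3) : ℝ) +
              (NL (A / 3 + 2 * Q) Q (3 * L) (3 * R) (T / 3) : ℝ) +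
              (NL (A / 3 + 4 * Q) Q (3 * L) (3 * R) (T / 3) : ℝ) ≤ (NL A Q L R T : ℝ) := by
            exact_mod_cast hn
          have i1 := ih (T / 3) hT3 (A / 3) Q (3 * L) (3 * R) hQ2 hQ3 (by linarith) (by linarith)
          have i2 := ih (T / 3) hT3 (A / 3 + 2 * Q) Q (3 * L) (3 * R) hQ2 hQ3 (by linarith)
            (by linarith)
          have i3 := ih (T / 3) hT3 (A / 3 + 4 * Q) Q (3 * L) (3 * R) hQ2 hQ3 (by linarith)
            (by linarith)
          have hst := step (k := 3) (T := T) (v := v (A % 6)) (u := u (A % 6))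
            (VS := v 1 + v 3 + v 5) (US := u 1 + u 3 + u 5) hG.hαθ hG.hβ0 hG.hβ hG.hB hG.hBη
            (Or.inr rfl) hT hL (hG.vpos _ hr).le (vle1 _ hr)
            (add_nonneg (add_nonneg (hG.upos 1 (by norm_num)).le (hG.upos 3 (by norm_num)).le)
              (hG.upos 5 (by norm_num)).le)
            (by push_cast; rw [h]; exact hG.v3) (by push_cast; rw [h]; exact hG.u3)
          rw [H_add, H_add] at hst
          have hm := mul_le_of_le_div (k := 3) (T := T) hw
          unfold K at i1 i2 i3 ⊢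
          rw [eR3] at i1 i2 i3
          push_cast at hst hm
          have hc := three_cases A Q h hQ2 hQ3
          rcases hc with ⟨e1, e2, e3⟩ | ⟨e1, e2, e3⟩ | ⟨e1, e2, e3⟩ | ⟨e1, e2, e3⟩ |
            ⟨e1, e2, e3⟩ | ⟨e1, e2, e3⟩ <;>
          · rw [e1] at i1
            rw [e2] at i2
            rw [e3] at i3
            push_cast at i1 i2 i3
            linarith
        · refine ev (by omega) 2 5 (by omega) (by norm_num) (by norm_num) ?_ ?_
          · rw [h]; exact hG.v4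
          · rw [h]; exact hG.u4
      intro A Q L R hQ2 hQ3 hL hR
      by_cases hb : L ≤ 1 ∨ 1 < R
      · exact base T A Q L R hL hR hb
      · push Not at hb
        obtain ⟨hL1, hR1⟩ := hb
        have low : ∀ (A' Q' : ℕ) (L' R' : ℝ), Q' % 2 = 1 → Q' % 3 ≠ 0 → 1 / 5 ≤ L' → 0 < R' →
            A' % 6 ≠ 1 → A' % 6 ≠ 5 →
            K θ α β B (v (A' % 6)) (u (A' % 6)) L' R' T ≤ NL A' Q' L' R' T := by
          intro A' Q' L' R' g1 g2 g3 gR g4 g5
          by_cases g6 : L' ≤ 1 ∨ 1 < R'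
          · exact base T A' Q' L' R' g3 gR g6
          · push Not at g6
            exact key A' Q' L' R' g1 g2 g6.1.le gR g6.2 g4 g5
        have hL0 : 0 < L := by linarith
        have eR5 : R / 5 / (L / 5) = R / L := by field_simp
        have conv : ∀ v' u' v'' u'' : ℝ, v'' = (5 : ℝ) ^ θ * v' → (5 : ℝ) ^ α * u' ≤ u'' →
            K θ α β B v'' u'' L R T ≤ K θ α β B v' u' (L / 5) (R / 5) T := by
          intro v' u' v'' u'' h1 h2
          unfold K H
          rw [eR5]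
          have e1 : (L / 5) ^ (-θ) = (5 : ℝ) ^ θ * L ^ (-θ) := by
            rw [Real.div_rpow hL0.le (by norm_num), Real.rpow_neg (by norm_num : (0 : ℝ) ≤ 5)]
            field_simp
          have e2 : (L / 5) ^ (-α) = (5 : ℝ) ^ α * L ^ (-α) := by
            rw [Real.div_rpow hL0.le (by norm_num), Real.rpow_neg (by norm_num : (0 : ℝ) ≤ 5)]
            field_simp
          rw [e1, e2, h1]
          have h3 : 0 ≤ B * (T : ℝ) ^ (1 - β) * L ^ (-α) := by
            have := hG.hB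
            positivity
          have h4 := mul_le_mul_of_nonneg_left h2 h3
          nlinarith
        by_cases h1 : A % 6 = 1
        · have hn := NL_five A Q L R hL0.le hR.le hR1 T (Or.inl h1)
          have hnr : (NL (5 * A + 1) (5 * Q) (L / 5) (R / 5) T : ℝ) ≤ (NL A Q L R T : ℝ) := by
            exact_mod_cast hn
          have e : (5 * A + 1) % 6 = 0 := by omega
          have i1 := low (5 * A + 1) (5 * Q) (L / 5) (R / 5) (by omega) (by omega) (by linarith)
            (by linarith) (by omega) (by omega)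
          rw [e] at i1
          rw [h1]
          exact ((conv _ _ _ _ hG.v1 hG.u1).trans i1).trans hnr
        · by_cases h5 : A % 6 = 5
          · have hn := NL_five A Q L R hL0.le hR.le hR1 T (Or.inr h5)
            have hnr : (NL (5 * A + 1) (5 * Q) (L / 5) (R / 5) T : ℝ) ≤ (NL A Q L R T : ℝ) := by
              exact_mod_cast hn
            have e : (5 * A + 1) % 6 = 2 := by omega
            have i1 := low (5 * A + 1) (5 * Q) (L / 5) (R / 5) (by omega) (by omega)
              (by linarith) (by linarith) (by omega) (by omega)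
            rw [e] at i1
            rw [h5]
            exact ((conv _ _ _ _ hG.v5 hG.u5).trans i1).trans hnr
          · exact key A Q L R hQ2 hQ3 hL1.le hR hR1 h1 h5

/-- One round of the cycle 5, 2, 1, 0, 3 of residues. -/
lemma boost {A Q : ℕ} {L R : ℝ} (hA : A % 6 = 5) (hQ2 : Q % 2 = 1) (hQ3 : Q % 3 ≠ 0)
    (hL : 0 ≤ L) (hR0 : 0 ≤ R) (hR1 : R ≤ 1) (T : ℕ) :
    ∃ A' : ℕ, A' % 6 = 5 ∧ NL A' (25 * Q) (12 / 25 * L) (12 / 25 * R) (T / 12) ≤
      NL A Q L R T := by
  have s1 := NL_five A Q L R hL hR0 hR1 T (Or.inr hA)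
  have s2 := NL_even (5 * A + 1) (5 * Q) (L / 5) (R / 5) (by linarith) T (by omega)
  -- the child with residue 1
  obtain ⟨A2, hA2, h2⟩ : ∃ A2 : ℕ, A2 % 6 = 1 ∧
      NL A2 (5 * Q) (2 * (L / 5)) (2 * (R / 5)) (T / 2) ≤
        NL (5 * A + 1) (5 * Q) (L / 5) (R / 5) T := by
    have hc : ((5 * A + 1) / 2) % 6 = 1 ∨ ((5 * A + 1) / 2 + 3 * (5 * Q)) % 6 = 1 := by omega
    rcases hc with h | h
    · exact ⟨_, h, by omega⟩
    · exact ⟨_, h, by omega⟩
  have s3 := NL_five A2 (5 * Q) (2 * (L / 5)) (2 * (R / 5)) (by linarith) (by linarith)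
    (by linarith) (T / 2) (Or.inl hA2)
  have s4 := NL_even (5 * A2 + 1) (5 * (5 * Q)) (2 * (L / 5) / 5) (2 * (R / 5) / 5)
    (by linarith) (T / 2) (by omega)
  obtain ⟨A4, hA4, h4⟩ : ∃ A4 : ℕ, A4 % 6 = 3 ∧
      NL A4 (5 * (5 * Q)) (2 * (2 * (L / 5) / 5)) (2 * (2 * (R / 5) / 5)) (T / 2 / 2) ≤
        NL (5 * A2 + 1) (5 * (5 * Q)) (2 * (L / 5) / 5) (2 * (R / 5) / 5) (T / 2) := by
    have hc : ((5 * A2 + 1) / 2) % 6 = 3 ∨ ((5 * A2 + 1) / 2 + 3 * (5 * (5 * Q))) % 6 = 3 := by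
      omega
    rcases hc with h | h
    · exact ⟨_, h, by omega⟩
    · exact ⟨_, h, by omega⟩
  have s5 := NL_three A4 (5 * (5 * Q)) (2 * (2 * (L / 5) / 5)) (2 * (2 * (R / 5) / 5))
    (by linarith) (T / 2 / 2) hA4
  obtain ⟨A5, hA5, h5⟩ : ∃ A5 : ℕ, A5 % 6 = 5 ∧
      NL A5 (5 * (5 * Q)) (3 * (2 * (2 * (L / 5) / 5))) (3 * (2 * (2 * (R / 5) / 5)))
        (T / 2 / 2 / 3) ≤
        NL A4 (5 * (5 * Q)) (2 * (2 * (L / 5) / 5)) (2 * (2 * (R / 5) / 5)) (T / 2 / 2) := by
    have hc : (A4 / 3) % 6 = 5 ∨ (A4 / 3 + 2 * (5 * (5 * Q))) % 6 = 5 ∨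
        (A4 / 3 + 4 * (5 * (5 * Q))) % 6 = 5 := by
      have h := three_cases A4 (5 * (5 * Q)) hA4 (by omega) (by omega)
      omega
    rcases hc with h | h | h
    · exact ⟨_, h, by omega⟩
    · exact ⟨_, h, by omega⟩
    · exact ⟨_, h, by omega⟩
  refine ⟨A5, hA5, ?_⟩
  have eL : 12 / 25 * L = 3 * (2 * (2 * (L / 5) / 5)) := by ring
  have eR : 12 / 25 * R = 3 * (2 * (2 * (R / 5) / 5)) := by ring
  have eT : T / 12 = T / 2 / 2 / 3 := by omega
  have eQ : 25 * Q = 5 * (5 * Q) := by ring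
  rw [eL, eR, eT, eQ]
  omega

lemma boosts {L R : ℝ} (hL : 0 ≤ L) (hR0 : 0 ≤ R) (hR1 : R ≤ 1) (T : ℕ) (p : ℕ) :
    ∀ A Q : ℕ, A % 6 = 5 → Q % 2 = 1 → Q % 3 ≠ 0 →
    ∃ A' Q' : ℕ, A' % 6 = 5 ∧ Q' % 2 = 1 ∧ Q' % 3 ≠ 0 ∧
      NL A' Q' ((12 / 25) ^ p * L) ((12 / 25) ^ p * R) (T / 12 ^ p) ≤ NL A Q L R T := by
  induction p with
  | zero =>
    intro A Q hA hQ2 hQ3
    refine ⟨A, Q, hA, hQ2, hQ3, ?_⟩
    simp
  | succ p ih =>
    intro A Q hA hQ2 hQ3
    obtain ⟨A1, Q1, hA1, h2, h3, hle⟩ := ih A Q hA hQ2 hQ3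
    have hp : (0 : ℝ) ≤ (12 / 25) ^ p := by positivity
    have hp1 : ((12 : ℝ) / 25) ^ p ≤ 1 := pow_le_one₀ (by norm_num) (by norm_num)
    obtain ⟨A', hA', hle'⟩ := boost (A := A1) (Q := Q1) (L := (12 / 25) ^ p * L)
      (R := (12 / 25) ^ p * R) hA1 h2 h3 (mul_nonneg hp hL) (mul_nonneg hp hR0)
      (mul_le_one₀ hp1 hR0 hR1) (T / 12 ^ p)
    refine ⟨A', 25 * Q1, hA', by omega, by omega, ?_⟩
    have eL : (12 / 25 : ℝ) ^ (p + 1) * L = 12 / 25 * ((12 / 25) ^ p * L) := by
      rw [pow_succ]; ring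
    have eR : (12 / 25 : ℝ) ^ (p + 1) * R = 12 / 25 * ((12 / 25) ^ p * R) := by
      rw [pow_succ]; ring
    have eT : T / 12 ^ (p + 1) = T / 12 ^ p / 12 := by
      rw [pow_succ, Nat.div_div_eq_div_mul]
    rw [eL, eR, eT]
    exact hle'.trans hle

end Pool.Agent.H12.EU
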