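import Pool.Agent.H12.EU.UpMain
import Pool.Agent.H12.EU.Low

/-!
The constants for the upper bound and the two counts.
-/

namespace Pool.Agent.H12.EU

open Pool.Agent.H83.EX Finset

/-- The trajectory of `n` exceeds `n ^ ρ` before it falls below `n`. -/
def Exceeds (ρ : ℝ) (n : ℕ) : Prop :=
  ∃ i : ℕ, (n : ℝ) ^ ρ < (C^[i] n : ℝ) ∧ ∀ j : ℕ, j ≤ i → n ≤ C^[j] n

/-- The trajectory of `n` never falls below `n`. -/
def Stays (n : ℕ) : Prop := ∀ j : ℕ, n ≤ C^[j] n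

open Classical in
/-- The number of `n ≤ N` whose trajectory exceeds `n ^ ρ` before it falls below `n`. -/
noncomputable def S (ρ : ℝ) (N : ℕ) : ℕ := ((Icc 1 N).filter (fun n => Exceeds ρ n)).card

open Classical in
/-- The number of `n ≤ N` whose trajectory exceeds `n ^ ρ` before it falls below `n` or never
falls below `n`. -/
noncomputable def S' (ρ : ℝ) (N : ℕ) : ℕ :=
  ((Icc 1 N).filter (fun n => Exceeds ρ n ∨ Stays n)).card

/-- The supersolution for the upper bound. -/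
noncomputable def uU : ℕ → ℝ
  | 0 => 38048 / 100000
  | 1 => 19024 / 10000
  | 2 => 96262 / 100000
  | 3 => 1
  | 4 => 159127 / 100000
  | 5 => 48131 / 10000
  | _ => 1

lemma two_powU : (2 : ℝ) ^ (-(43 / 50) : ℝ) ≤ 550953 / 1000000 :=
  rpow_le_of (by norm_num) (by norm_num) (-43) 50 (by norm_num) (by norm_num) (by norm_num)

lemma three_powU : (3 : ℝ) ^ (-(43 / 50) : ℝ) ≤ 388755 / 1000000 :=
  rpow_le_of (by norm_num) (by norm_num) (-43) 50 (by norm_num) (by norm_num) (by norm_num)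

lemma goodU_of {θ : ℝ} {w : Fin 6 → ℝ} (hθ1 : 1 ≤ θ) (hθ3 : θ ≤ 3) (hw : ∀ i, 0 < w i)
    (h : Eqs θ w) : ∃ B : ℝ, ∃ v : ℕ → ℝ, GoodU θ B v uU := by
  obtain ⟨h0, h1, h2, h3, h4, h5⟩ := h
  have w0 := hw 0
  have w1 := hw 1
  have w2 := hw 2
  have w3 := hw 3
  have w4 := hw 4
  have w5 := hw 5
  set κ : ℝ := 1 / w 0 + 1 / w 1 + 1 / w 2 + 1 / w 3 + 1 / w 4 + 1 / w 5 with hκ
  have i0 : 0 < 1 / w 0 := by positivity
  have i1 : 0 < 1 / w 1 := by positivity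
  have i2 : 0 < 1 / w 2 := by positivity
  have i3 : 0 < 1 / w 3 := by positivity
  have i4 : 0 < 1 / w 4 := by positivity
  have i5 : 0 < 1 / w 5 := by positivity
  have hκ0 : 0 < κ := by positivity
  have hge : ∀ x : ℝ, 0 < x → 1 / x ≤ κ → 1 ≤ κ * x := by
    intro x hx hle
    calc (1 : ℝ) = 1 / x * x := by field_simp
      _ ≤ κ * x := mul_le_mul_of_nonneg_right hle hx.le
  set V : ℝ := κ * (w 0 + w 1 + w 2 + w 3 + w 4 + w 5) with hV
  have hV0 : 0 < V := by positivity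
  have hle : ∀ x : ℝ, x ≤ w 0 + w 1 + w 2 + w 3 + w 4 + w 5 →
      16 * (κ * x) ≤ (1000000 + 160000 * V) * (1 / 10000) := by
    intro x hx
    have : κ * x ≤ V := mul_le_mul_of_nonneg_left hx hκ0.le
    linarith
  have t2 := two_powU
  have t3 := three_powU
  refine ⟨1000000 + 160000 * V, vN κ w, ?_⟩
  constructor
  · exact hθ1
  · exact hθ3
  · positivity
  · intro r hr
    interval_cases r <;> simp only [uU] <;> nlinarith
  · intro r hr
    interval_cases r <;> simp only [vN] <;> apply hle <;> linarith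
  · intro r hr
    interval_cases r
    · exact hge _ w0 (by rw [hκ]; linarith)
    · exact hge _ w1 (by rw [hκ]; linarith)
    · exact hge _ w2 (by rw [hκ]; linarith)
    · exact hge _ w3 (by rw [hκ]; linarith)
    · exact hge _ w4 (by rw [hκ]; linarith)
    · exact hge _ w5 (by rw [hκ]; linarith)
  · intro r hr
    interval_cases r <;> simp only [uU] <;> norm_num
  · simp only [vN]
    calc κ * w 0 = κ * ((2 : ℝ) ^ (-θ) * (w 0 + w 3) / 2) := by rw [← h0]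
      _ = _ := by ring
  · simp only [vN]
    rw [h1]
    ring
  · simp only [vN]
    calc κ * w 2 = κ * ((2 : ℝ) ^ (-θ) * (w 1 + w 4) / 2) := by rw [← h2]
      _ = _ := by ring
  · simp only [vN]
    calc κ * w 3 = κ * ((3 : ℝ) ^ (-θ) * (w 1 + w 3 + w 5) / 3) := by rw [← h3]
      _ = _ := by ring
  · simp only [vN]
    calc κ * w 4 = κ * ((2 : ℝ) ^ (-θ) * (w 2 + w 5) / 2) := by rw [← h4]
      _ = _ := by ring
  · simp only [vN]
    rw [h5]
    ring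
  · simp only [uU]
    linarith
  · simp only [uU]
    norm_num
  · simp only [uU]
    linarith
  · simp only [uU]
    linarith
  · simp only [uU]
    linarith
  · simp only [uU]
    norm_num

lemma uU_le (r : ℕ) : uU r ≤ 5 := by
  unfold uU
  split <;> norm_num

lemma reach_of_exceeds {ρ : ℝ} (hρ : 0 ≤ ρ) {N n : ℕ} (h1 : N < 2 * n)
    (h : Exceeds ρ n ∨ Stays n) : Reach (((N : ℝ) / 2) ^ ρ) ((N : ℝ) / 2) n := by
  have h2 : (N : ℝ) / 2 ≤ n := by
    have : (N : ℝ) < ((2 * n : ℕ) : ℝ) := by exact_mod_cast h1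
    push_cast at this
    linarith
  have hN : (0 : ℝ) ≤ (N : ℝ) / 2 := by positivity
  rcases h with ⟨i, hi, hj⟩ | hj
  · refine Or.inl ⟨i, ?_, ?_⟩
    · exact (Real.rpow_le_rpow hN h2 hρ).trans hi.le
    · intro j hji
      have : (n : ℝ) ≤ (C^[j] n : ℝ) := by exact_mod_cast hj j hji
      linarith
  · refine Or.inr ?_
    intro j
    have : (n : ℝ) ≤ (C^[j] n : ℝ) := by exact_mod_cast hj j
    linarith

open Classical in
lemma dyadic_le {ρ : ℝ} (hρ : 0 ≤ ρ) (N : ℕ) :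
    ((Icc 1 N).filter (fun n => N < 2 * n ∧ (Exceeds ρ n ∨ Stays n))).card ≤
      ∑ j ∈ range 6, NU j 1 (((N : ℝ) / 2) ^ ρ) ((N : ℝ) / 2) ((N + 1 + 6 - 1 - j) / 6) := by
  have h := card_split_le 6 (N + 1) (by norm_num)
    (fun j s => Reach (((N : ℝ) / 2) ^ ρ) ((N : ℝ) / 2) (j + 6 * 1 * s))
    (fun n => N < 2 * n ∧ (Exceeds ρ n ∨ Stays n))
    (by
      intro j hj s hs hq
      have e : 6 * s + j = j + 6 * 1 * s := by ring
      rw [e] at hq
      exact reach_of_exceeds hρ hq.1 hq.2)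
  refine le_trans (Finset.card_le_card ?_) h
  intro n hn
  rw [mem_filter, mem_Icc] at hn
  rw [mem_filter, mem_range]
  exact ⟨by omega, hn.2⟩

/-- The bound for the starting values in the upper half of `[1, N]`. -/
lemma dyadic_bound {θ B : ℝ} {v : ℕ → ℝ} (hG : GoodU θ B v uU) {ρ : ℝ} (hρ : 1 ≤ ρ) :
    ∃ C1 : ℝ, 0 < C1 ∧ ∀ N : ℕ, 2 ≤ N → ∀ j : ℕ, j < 6 →
      (NU j 1 (((N : ℝ) / 2) ^ ρ) ((N : ℝ) / 2) ((N + 1 + 6 - 1 - j) / 6) : ℝ) ≤
        C1 * (N : ℝ) ^ (max (1 - θ * (ρ - 1)) (43 / 50)) := by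
  have hθ1 := hG.hθ1
  have hθ3 := hG.hθ3
  have hB := hG.hB
  set V : ℝ := v 0 + v 1 + v 2 + v 3 + v 4 + v 5 with hV
  have v0 := hG.v1le 0 (by norm_num)
  have v1 := hG.v1le 1 (by norm_num)
  have v2 := hG.v1le 2 (by norm_num)
  have v3 := hG.v1le 3 (by norm_num)
  have v4 := hG.v1le 4 (by norm_num)
  have v5 := hG.v1le 5 (by norm_num)
  have hV0 : 0 < V := by rw [hV]; linarith
  have hvV : ∀ r, r < 6 → v r ≤ V := by
    intro r hr
    interval_cases r <;> rw [hV] <;> linarith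
  set W : ℝ := ((2 : ℝ) * 2 ^ ρ) ^ θ with hW
  have hW0 : 0 < W := by positivity
  refine ⟨Real.exp θ * (V * W + B * 5 * 4), by positivity, ?_⟩
  intro N hN j hj
  have hN2 : (2 : ℝ) ≤ N := by exact_mod_cast hN
  have hN0 : (0 : ℝ) < N := by linarith
  have hN1 : (1 : ℝ) ≤ N := by linarith
  have hh1 : 1 ≤ (N : ℝ) / 2 := by linarith
  have hx : (1 : ℝ) ≤ ((N : ℝ) / 2) ^ ρ := Real.one_le_rpow hh1 (by linarith)
  have hx0 : 0 < ((N : ℝ) / 2) ^ ρ := by linarith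
  set T : ℕ := (N + 1 + 6 - 1 - j) / 6 with hT
  have hTN : T ≤ N := by omega
  have hpow : N ≤ 2 ^ N := (Nat.lt_two_pow_self).le
  have hm := mainU hG (x := ((N : ℝ) / 2) ^ ρ) (R := (N : ℝ) / 2) (by linarith) (by linarith)
    N T (hTN.trans hpow) j 1 (N : ℝ) (by norm_num) (by norm_num) hN0.le (by
      intro s hs
      have : j + 6 * 1 * s ≤ N := by omega
      exact_mod_cast this)
  refine hm.trans ?_
  have hjr : j % 6 < 6 := Nat.mod_lt _ (by norm_num)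
  have hTr : (T : ℝ) ≤ N := by exact_mod_cast hTN
  have hT0 : (0 : ℝ) ≤ T := Nat.cast_nonneg T
  -- the factor
  have hz : ((1 + 1 / (2 * ((N : ℝ) / 2))) ^ θ) ^ N ≤ Real.exp θ := by
    have e1 : 1 + 1 / (2 * ((N : ℝ) / 2)) = 1 + 1 / N := by
      congr 2
      ring
    rw [e1]
    have h1 : 1 + 1 / (N : ℝ) ≤ Real.exp (1 / N) := by
      have := Real.add_one_le_exp (1 / (N : ℝ))
      linarith
    have h2 : (1 + 1 / (N : ℝ)) ^ θ ≤ Real.exp (1 / N) ^ θ :=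
      Real.rpow_le_rpow (by positivity) h1 (by linarith)
    have h3 : Real.exp (1 / N) ^ θ = Real.exp (θ / N) := by
      rw [← Real.exp_mul]
      congr 1
      ring
    rw [h3] at h2
    calc ((1 + 1 / (N : ℝ)) ^ θ) ^ N ≤ Real.exp (θ / N) ^ N :=
          pow_le_pow_left₀ (by positivity) h2 N
      _ = Real.exp θ := by
          rw [← Real.exp_nat_mul]
          congr 1
          field_simp
  set e : ℝ := max (1 - θ * (ρ - 1)) (43 / 50) with he
  have hGle : G θ B (v (j % 6)) (uU (j % 6)) (((N : ℝ) / 2) ^ ρ) ((N : ℝ) / 2)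
      ((N : ℝ) + 1 / 4) T ≤ (V * W + B * 5 * 4) * (N : ℝ) ^ e := by
    have hyN : (N : ℝ) + 1 / 4 ≤ 2 * N := by linarith
    have a1 : (((N : ℝ) + 1 / 4) / ((N : ℝ) / 2) ^ ρ) ^ θ ≤ W * (N : ℝ) ^ (-(θ * (ρ - 1))) := by
      have b1 : ((N : ℝ) + 1 / 4) / ((N : ℝ) / 2) ^ ρ ≤ (2 * 2 ^ ρ) * (N : ℝ) ^ (1 - ρ) := by
        rw [div_le_iff₀ hx0, Real.div_rpow hN0.le (by norm_num)]
        have b2 : (2 : ℝ) * 2 ^ ρ * (N : ℝ) ^ (1 - ρ) * ((N : ℝ) ^ ρ / 2 ^ ρ) = 2 * N := by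
          have b3 : (N : ℝ) ^ (1 - ρ) * (N : ℝ) ^ ρ = N := by
            rw [← Real.rpow_add hN0]
            simp
          have b4 : (2 : ℝ) ^ ρ ≠ 0 := by positivity
          calc (2 : ℝ) * 2 ^ ρ * (N : ℝ) ^ (1 - ρ) * ((N : ℝ) ^ ρ / 2 ^ ρ)
              = 2 * ((N : ℝ) ^ (1 - ρ) * (N : ℝ) ^ ρ) := by field_simp
            _ = 2 * N := by rw [b3]
        rw [b2]
        exact hyN
      calc (((N : ℝ) + 1 / 4) / ((N : ℝ) / 2) ^ ρ) ^ θ
          ≤ ((2 * 2 ^ ρ) * (N : ℝ) ^ (1 - ρ)) ^ θ :=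
            Real.rpow_le_rpow (by positivity) b1 (by linarith)
        _ = W * (N : ℝ) ^ (-(θ * (ρ - 1))) := by
            rw [Real.mul_rpow (by positivity) (by positivity), ← Real.rpow_mul hN0.le]
            congr 2
            ring
    have a2 : ((N : ℝ) + 1 / 4) / ((N : ℝ) / 2) ≤ 4 := by
      rw [div_le_iff₀ (by positivity)]
      linarith
    have a3 : (T : ℝ) ^ (43 / 50 : ℝ) ≤ (N : ℝ) ^ (43 / 50 : ℝ) :=
      Real.rpow_le_rpow hT0 hTr (by norm_num)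
    have a4 : (N : ℝ) ^ (43 / 50 : ℝ) ≤ (N : ℝ) ^ e :=
      Real.rpow_le_rpow_of_exponent_le hN1 (le_max_right _ _)
    have a5 : (N : ℝ) * (N : ℝ) ^ (-(θ * (ρ - 1))) ≤ (N : ℝ) ^ e := by
      have : (N : ℝ) * (N : ℝ) ^ (-(θ * (ρ - 1))) = (N : ℝ) ^ (1 - θ * (ρ - 1)) := by
        have e9 : 1 - θ * (ρ - 1) = 1 + -(θ * (ρ - 1)) := by ring
        rw [e9, Real.rpow_add hN0, Real.rpow_one]
      rw [this]
      exact Real.rpow_le_rpow_of_exponent_le hN1 (le_max_left _ _)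
    have hu5 := uU_le (j % 6)
    have hu0 := hG.upos _ hjr
    have hvj := hvV _ hjr
    have hv1 := hG.v1le _ hjr
    have a6 : v (j % 6) * T * (((N : ℝ) + 1 / 4) / ((N : ℝ) / 2) ^ ρ) ^ θ ≤
        V * W * (N : ℝ) ^ e := by
      calc v (j % 6) * T * (((N : ℝ) + 1 / 4) / ((N : ℝ) / 2) ^ ρ) ^ θ
          ≤ V * N * (W * (N : ℝ) ^ (-(θ * (ρ - 1)))) := by
            refine mul_le_mul ?_ a1 (by positivity) (by positivity)
            exact mul_le_mul hvj hTr hT0 hV0.le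
        _ = V * W * ((N : ℝ) * (N : ℝ) ^ (-(θ * (ρ - 1)))) := by ring
        _ ≤ V * W * (N : ℝ) ^ e := mul_le_mul_of_nonneg_left a5 (by positivity)
    have a7 : B * uU (j % 6) * (T : ℝ) ^ (43 / 50 : ℝ) * (((N : ℝ) + 1 / 4) / ((N : ℝ) / 2)) ≤
        B * 5 * 4 * (N : ℝ) ^ e := by
      calc B * uU (j % 6) * (T : ℝ) ^ (43 / 50 : ℝ) * (((N : ℝ) + 1 / 4) / ((N : ℝ) / 2))
          ≤ B * 5 * (N : ℝ) ^ e * 4 := by
            refine mul_le_mul ?_ a2 (by positivity) (by positivity)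
            refine mul_le_mul ?_ (a3.trans a4) (by positivity) (by positivity)
            exact mul_le_mul_of_nonneg_left hu5 hB
        _ = B * 5 * 4 * (N : ℝ) ^ e := by ring
    unfold G
    rw [add_mul]
    exact add_le_add a6 a7
  have hG0 : 0 ≤ G θ B (v (j % 6)) (uU (j % 6)) (((N : ℝ) / 2) ^ ρ) ((N : ℝ) / 2)
      ((N : ℝ) + 1 / 4) T :=
    G_nonneg hB (by linarith [hG.v1le _ hjr]) (hG.upos _ hjr).le hx0 (by linarith)
      (by linarith) hT0
  calc ((1 + 1 / (2 * ((N : ℝ) / 2))) ^ θ) ^ N * G θ B (v (j % 6)) (uU (j % 6))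
        (((N : ℝ) / 2) ^ ρ) ((N : ℝ) / 2) ((N : ℝ) + 1 / 4) T
      ≤ Real.exp θ * ((V * W + B * 5 * 4) * (N : ℝ) ^ e) :=
        mul_le_mul hz hGle hG0 (Real.exp_pos _).le
    _ = Real.exp θ * (V * W + B * 5 * 4) * (N : ℝ) ^ e := by ring

open Classical in
lemma S_split (ρ : ℝ) (N : ℕ) :
    S' ρ N ≤ ((Icc 1 N).filter (fun n => N < 2 * n ∧ (Exceeds ρ n ∨ Stays n))).card +
      S' ρ (N / 2) := by
  unfold S'
  refine le_trans (Finset.card_le_card ?_) (Finset.card_union_le _ _)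
  intro n hn
  rw [mem_filter, mem_Icc] at hn
  rw [mem_union, mem_filter, mem_filter, mem_Icc, mem_Icc]
  by_cases h : N < 2 * n
  · exact Or.inl ⟨hn.1, h, hn.2⟩
  · exact Or.inr ⟨⟨hn.1.1, by omega⟩, hn.2⟩

open Classical in
lemma S_le (ρ : ℝ) (N : ℕ) : S' ρ N ≤ N := by
  unfold S'
  refine (Finset.card_filter_le _ _).trans ?_
  simp

/-- The upper bound. -/
theorem upper {θ : ℝ} (hθ : IsThetaStar θ) {ρ : ℝ} (hρ : 1 ≤ ρ) :
    ∃ C0 : ℝ, 0 < C0 ∧ ∀ N : ℕ, 1 ≤ N →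
      (S' ρ N : ℝ) ≤ C0 * (N : ℝ) ^ (max (1 - θ * (ρ - 1)) (43 / 50)) := by
  classical
  obtain ⟨hθ0, w, hw, hv⟩ := hθ
  have hE := eqs_of hv
  have hlt := theta_lt hθ0 hw hE
  have hgt := theta_gt hθ0 hw hE
  obtain ⟨B, v, hG⟩ := goodU_of (by linarith) (by linarith) hw hE
  obtain ⟨C1, hC1, hD⟩ := dyadic_bound hG hρ
  set e : ℝ := max (1 - θ * (ρ - 1)) (43 / 50) with he
  have he1 : (43 / 50 : ℝ) ≤ e := le_max_right _ _
  have he0 : 0 < e := by linarith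
  have h2e : (1 / 2 : ℝ) ^ e ≤ 551 / 1000 := by
    have h1 : (1 / 2 : ℝ) ^ e ≤ (1 / 2 : ℝ) ^ (43 / 50 : ℝ) :=
      Real.rpow_le_rpow_of_exponent_ge (by norm_num) (by norm_num) he1
    have h2 : (1 / 2 : ℝ) ^ (43 / 50 : ℝ) = (2 : ℝ) ^ (-(43 / 50) : ℝ) := by
      rw [one_div, Real.inv_rpow (by norm_num), Real.rpow_neg (by norm_num)]
    rw [h2] at h1
    have := two_powU
    linarith
  refine ⟨18 * C1 + 1, by positivity, ?_⟩
  intro N
  induction N using Nat.strong_induction_on with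
  | _ N ih =>
    intro hN
    have hN1 : (1 : ℝ) ≤ N := by exact_mod_cast hN
    have hN0 : (0 : ℝ) < N := by linarith
    have hp1 : 1 ≤ (N : ℝ) ^ e := Real.one_le_rpow hN1 he0.le
    rcases Nat.lt_or_ge N 2 with h | h
    · have hN' : N = 1 := by omega
      have h1 : (S' ρ N : ℝ) ≤ N := by exact_mod_cast S_le ρ N
      have h2 : (N : ℝ) = 1 := by rw [hN']; norm_num
      nlinarith
    · have h1 := S_split ρ N
      have h2 := dyadic_le (ρ := ρ) (by linarith) N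
      have h3 : (S' ρ N : ℝ) ≤ (∑ j ∈ range 6, (NU j 1 (((N : ℝ) / 2) ^ ρ) ((N : ℝ) / 2)
          ((N + 1 + 6 - 1 - j) / 6) : ℝ)) + S' ρ (N / 2) := by
        have h4 : S' ρ N ≤ (∑ j ∈ range 6, NU j 1 (((N : ℝ) / 2) ^ ρ) ((N : ℝ) / 2)
          ((N + 1 + 6 - 1 - j) / 6)) + S' ρ (N / 2) := by omega
        exact_mod_cast h4
      have h5 : (∑ j ∈ range 6, (NU j 1 (((N : ℝ) / 2) ^ ρ) ((N : ℝ) / 2)
          ((N + 1 + 6 - 1 - j) / 6) : ℝ)) ≤ ∑ j ∈ range 6, C1 * (N : ℝ) ^ e :=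
        Finset.sum_le_sum (fun j hj => hD N h j (mem_range.mp hj))
      rw [Finset.sum_const, Finset.card_range, nsmul_eq_mul] at h5
      have h6 := ih (N / 2) (by omega) (by omega)
      have h7 : ((N / 2 : ℕ) : ℝ) ^ e ≤ 551 / 1000 * (N : ℝ) ^ e := by
        have h8 : ((N / 2 : ℕ) : ℝ) ≤ 1 / 2 * N := by
          have : (N / 2) * 2 ≤ N := by omega
          have h9 : (((N / 2) * 2 : ℕ) : ℝ) ≤ (N : ℝ) := by exact_mod_cast this
          push_cast at h9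
          linarith
        calc ((N / 2 : ℕ) : ℝ) ^ e ≤ (1 / 2 * (N : ℝ)) ^ e :=
              Real.rpow_le_rpow (Nat.cast_nonneg _) h8 he0.le
          _ = (1 / 2 : ℝ) ^ e * (N : ℝ) ^ e := Real.mul_rpow (by norm_num) hN0.le
          _ ≤ 551 / 1000 * (N : ℝ) ^ e := mul_le_mul_of_nonneg_right h2e (by positivity)
      have h10 : (18 * C1 + 1) * ((N / 2 : ℕ) : ℝ) ^ e ≤
          (18 * C1 + 1) * (551 / 1000 * (N : ℝ) ^ e) :=
        mul_le_mul_of_nonneg_left h7 (by positivity)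
      have h11 : 0 < C1 * (N : ℝ) ^ e := by positivity
      have e6 : ((6 : ℕ) : ℝ) = 6 := by norm_num
      rw [e6] at h5
      nlinarith [h3, h5, h6, h10, h11, hp1]

lemma S_le_S' (ρ : ℝ) (N : ℕ) : S ρ N ≤ S' ρ N := by
  classical
  unfold S S'
  refine Finset.card_le_card ?_
  intro n hn
  rw [mem_filter] at hn ⊢
  exact ⟨hn.1, Or.inl hn.2⟩

end Pool.Agent.H12.EU
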