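import Pool.Agent.H12.EU.LowMain

/-!
Excursions above `n ^ ρ` occur for infinitely many `n` if and only if excursions before the
trajectory falls below `n` do.
-/

namespace Pool.Agent.H12.EU

open Pool.Agent.H83.EX Finset

lemma lt_t_iff (ρ : ℝ) (n : ℕ) :
    (((n : ℝ) ^ ρ : ℝ) : EReal) < t n ↔ ∃ i : ℕ, (n : ℝ) ^ ρ < (C^[i] n : ℝ) := by
  unfold t
  rw [lt_iSup_iff]
  constructor
  · rintro ⟨i, hi⟩
    exact ⟨i, by exact_mod_cast hi⟩
  · rintro ⟨i, hi⟩
    exact ⟨i, by exact_mod_cast hi⟩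

/-- Descent to the least member of the initial part of the trajectory. -/
lemma descent {ρ : ℝ} (hρ : 0 ≤ ρ) {n i : ℕ} {x : ℝ} (hx : (n : ℝ) ^ ρ ≤ x)
    (hi : x < (C^[i] n : ℝ)) :
    ∃ m : ℕ, m ≤ n ∧ Exceeds ρ m ∧ ∃ l : ℕ, x < (C^[l] m : ℝ) := by
  obtain ⟨a, ha, hmin⟩ := Finset.exists_min_image (range (i + 1)) (fun j => C^[j] n)
    ⟨0, by simp⟩
  rw [mem_range] at ha
  have hle : C^[a] n ≤ n := by
    have := hmin 0 (by simp)
    simpa using this
  have e : ∀ j, C^[j] (C^[a] n) = C^[j + a] n := fun j => by rw [Function.iterate_add_apply]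
  have hi' : x < (C^[i - a] (C^[a] n) : ℝ) := by
    rw [e, Nat.sub_add_cancel (by omega)]
    exact hi
  refine ⟨C^[a] n, hle, ⟨i - a, ?_, ?_⟩, i - a, hi'⟩
  · refine lt_of_le_of_lt ?_ hi'
    refine le_trans ?_ hx
    exact Real.rpow_le_rpow (Nat.cast_nonneg _) (by exact_mod_cast hle) hρ
  · intro j hj
    rw [e]
    exact hmin (j + a) (by rw [mem_range]; omega)

/-- An unbounded trajectory is injective. -/
lemma inj_of_unbounded {m : ℕ} (h : ∀ K : ℕ, ∃ l : ℕ, K < C^[l] m) :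
    Function.Injective (fun l => C^[l] m) := by
  have key : ∀ a b : ℕ, a < b → C^[a] m ≠ C^[b] m := by
    intro a b hab heq
    -- all values are among the first `b`
    have hall : ∀ l, ∃ j, j < b ∧ C^[l] m = C^[j] m := by
      intro l
      induction l with
      | zero => exact ⟨0, by omega, rfl⟩
      | succ l ih =>
        obtain ⟨j, hj, hj'⟩ := ih
        have h1 : C^[l + 1] m = C^[j + 1] m := by
          rw [Function.iterate_succ_apply', Function.iterate_succ_apply', hj']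
        rcases Nat.lt_or_ge (j + 1) b with h2 | h2
        · exact ⟨j + 1, h2, h1⟩
        · have h3 : j + 1 = b := by omega
          exact ⟨a, hab, by rw [h1, h3, heq]⟩
    obtain ⟨l, hl⟩ := h (∑ j ∈ range b, C^[j] m)
    obtain ⟨j, hj, hj'⟩ := hall l
    rw [hj'] at hl
    have h9 : C^[j] m ≤ ∑ j ∈ range b, C^[j] m :=
      Finset.single_le_sum (f := fun j => C^[j] m) (fun _ _ => Nat.zero_le _) (mem_range.mpr hj)
    omega
  intro a b hab
  simp only at hab
  rcases Nat.lt_trichotomy a b with h1 | h1 | h1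
  · exact absurd hab (key a b h1)
  · exact h1
  · exact absurd hab.symm (key b a h1)

/-- An unbounded trajectory contains arbitrarily large members counted by `Exceeds`. -/
lemma exceeds_of_unbounded {ρ : ℝ} {m : ℕ} (h : ∀ K : ℕ, ∃ l : ℕ, K < C^[l] m) (M : ℕ) :
    ∃ k : ℕ, M < k ∧ Exceeds ρ k := by
  have hinj := inj_of_unbounded h
  -- only finitely many indices have small values
  have hfin : {l : ℕ | C^[l] m ≤ M}.Finite := by
    refine Set.Finite.of_finite_image (f := fun l => C^[l] m) ?_ (hinj.injOn)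
    refine (Set.finite_Iic M).subset ?_
    rintro _ ⟨l, hl, rfl⟩
    exact hl
  obtain ⟨b, hb⟩ := hfin.bddAbove
  -- the least value after the index `b`
  have hne : (Set.range (fun l : ℕ => C^[l + (b + 1)] m)).Nonempty := ⟨_, 0, rfl⟩
  obtain ⟨a, ha⟩ := Nat.sInf_mem hne
  have hmin : ∀ l : ℕ, C^[a + (b + 1)] m ≤ C^[l + (b + 1)] m := by
    intro l
    have h1 : sInf (Set.range (fun l : ℕ => C^[l + (b + 1)] m)) ≤ C^[l + (b + 1)] m :=
      Nat.sInf_le ⟨l, rfl⟩
    simp only at ha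
    rw [ha]
    exact h1
  set k := C^[a + (b + 1)] m with hk
  have e : ∀ j, C^[j] k = C^[j + a + (b + 1)] m := fun j => by
    rw [hk, ← Function.iterate_add_apply, add_assoc]
  have hkM : M < k := by
    by_contra hcon
    have h1 : a + (b + 1) ∈ {l : ℕ | C^[l] m ≤ M} := not_lt.mp hcon
    have h2 := hb h1
    omega
  have hstay : ∀ j, k ≤ C^[j] k := by
    intro j
    rw [e]
    exact hmin (j + a)
  -- the trajectory of `k` is unbounded
  obtain ⟨B, hB⟩ := exists_nat_gt ((k : ℝ) ^ ρ)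
  obtain ⟨l, hl⟩ := h (B + ∑ j ∈ range (a + (b + 1)), C^[j] m)
  have hlge : a + (b + 1) ≤ l := by
    by_contra hcon
    have h9 : C^[l] m ≤ ∑ j ∈ range (a + (b + 1)), C^[j] m :=
      Finset.single_le_sum (f := fun j => C^[j] m) (fun _ _ => Nat.zero_le _)
        (mem_range.mpr (not_le.mp hcon))
    omega
  refine ⟨k, hkM, l - (a + (b + 1)), ?_, fun j _ => hstay j⟩
  have e2 : C^[l - (a + (b + 1))] k = C^[l] m := by
    rw [hk, ← Function.iterate_add_apply, Nat.sub_add_cancel hlge]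
  rw [e2]
  have h3 : (B : ℝ) ≤ (C^[l] m : ℝ) := by
    have : B ≤ C^[l] m := by omega
    exact_mod_cast this
  linarith

theorem infinite_iff {ρ : ℝ} (hρ : 0 < ρ) :
    {n : ℕ | (((n : ℝ) ^ ρ : ℝ) : EReal) < t n}.Infinite ↔ {n : ℕ | Exceeds ρ n}.Infinite := by
  constructor
  · intro hinf
    by_contra hfin
    rw [Set.not_infinite] at hfin
    obtain ⟨M, hM⟩ := hfin.bddAbove
    -- every member descends to some `m ≤ M`
    have hex : ∀ n ∈ {n : ℕ | (((n : ℝ) ^ ρ : ℝ) : EReal) < t n}, ∃ m : ℕ, m ≤ M ∧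
        ∃ l : ℕ, (n : ℝ) ^ ρ < (C^[l] m : ℝ) := by
      intro n hn
      obtain ⟨i, hi⟩ := (lt_t_iff ρ n).mp hn
      obtain ⟨m, _, hm, l, hl⟩ := descent hρ.le (le_refl _) hi
      exact ⟨m, hM hm, l, hl⟩
    -- some `m ≤ M` has an unbounded trajectory
    have hun : ∃ m : ℕ, ∀ K : ℕ, ∃ l : ℕ, K < C^[l] m := by
      by_contra hcon
      push Not at hcon
      choose K hK using hcon
      set B : ℕ := ∑ m ∈ range (M + 1), K m with hB
      have hbd : ∀ n ∈ {n : ℕ | (((n : ℝ) ^ ρ : ℝ) : EReal) < t n}, (n : ℝ) ^ ρ < B := by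
        intro n hn
        obtain ⟨m, hm, l, hl⟩ := hex n hn
        have h1 := hK m l
        have h2 : K m ≤ ∑ m ∈ range (M + 1), K m :=
          Finset.single_le_sum (f := fun m => K m) (fun _ _ => Nat.zero_le _)
            (mem_range.mpr (show m < M + 1 by omega))
        have h3 : C^[l] m ≤ B := h1.trans h2
        have h4 : (C^[l] m : ℝ) ≤ (B : ℝ) := by exact_mod_cast h3
        linarith
      obtain ⟨D, hD⟩ := exists_nat_gt ((B : ℝ) ^ (1 / ρ))
      refine hinf ((Set.finite_Iic D).subset ?_)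
      intro n hn
      rw [Set.mem_Iic]
      have h1 := (hbd n hn).le
      have hn0 : (0 : ℝ) ≤ n := Nat.cast_nonneg n
      have h2 : ((n : ℝ) ^ ρ) ^ (1 / ρ) ≤ (B : ℝ) ^ (1 / ρ) :=
        Real.rpow_le_rpow (Real.rpow_nonneg hn0 _) h1 (by positivity)
      rw [← Real.rpow_mul hn0, mul_one_div_cancel hρ.ne', Real.rpow_one] at h2
      have h3 : (n : ℝ) < D := lt_of_le_of_lt h2 hD
      have h4 : n < D := by exact_mod_cast h3
      omega
    obtain ⟨m, hm⟩ := hun
    obtain ⟨k, hk, hk'⟩ := exceeds_of_unbounded (ρ := ρ) hm M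
    have := hM hk'
    omega
  · intro hinf
    refine hinf.mono ?_
    rintro n ⟨i, hi, _⟩
    exact (lt_t_iff ρ n).mpr ⟨i, hi⟩

end Pool.Agent.H12.EU
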