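import Pool.Agent.H12.EU.Const

/-!
The lower bound for the number of starting values whose trajectory exceeds `n ^ ρ` before it
falls below `n`.
-/

namespace Pool.Agent.H12.EU

open Pool.Agent.H83.EX Finset

lemma exceeds_of_bigR {n : ℕ} {N ρ : ℝ} (hn : 1 ≤ n) (hN : (n : ℝ) ≤ N) (hρ : 1 ≤ ρ)
    (h : BigR (2 * N ^ (ρ - 1)) 1 n) : Exceeds ρ n := by
  obtain ⟨i, hi, hj⟩ := h
  have hn1 : (1 : ℝ) ≤ n := by exact_mod_cast hn
  have hn0 : (0 : ℝ) < n := by linarith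
  refine ⟨i, ?_, ?_⟩
  · have e1 : (n : ℝ) ^ ρ = (n : ℝ) ^ (ρ - 1) * n := by
      rw [← Real.rpow_add_one hn0.ne']
      congr 1
      ring
    have e2 : (n : ℝ) ^ (ρ - 1) ≤ N ^ (ρ - 1) :=
      Real.rpow_le_rpow hn0.le hN (by linarith)
    have e3 : 0 < N ^ (ρ - 1) := Real.rpow_pos_of_pos (by linarith) _
    rw [e1]
    nlinarith
  · intro j hji
    have h1 := hj j hji
    rw [one_mul] at h1
    exact_mod_cast h1

lemma NL_le_S (N : ℕ) {ρ : ℝ} (hρ : 1 ≤ ρ) :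
    NL 5 1 (2 * (N : ℝ) ^ (ρ - 1)) 1 (N / 6) ≤ S ρ N := by
  classical
  unfold NL S
  refine Finset.card_le_card_of_injOn (fun s => 5 + 6 * 1 * s) ?_ ?_
  · intro s hs
    simp only [coe_filter, mem_range, Set.mem_ofPred_eq] at hs
    obtain ⟨hs1, hs2⟩ := hs
    simp only [coe_filter, mem_Icc, Set.mem_ofPred_eq]
    have h1 : 1 ≤ 5 + 6 * 1 * s := by omega
    have h2 : 5 + 6 * 1 * s ≤ N := by omega
    exact ⟨⟨h1, h2⟩, exceeds_of_bigR h1 (by exact_mod_cast h2) hρ hs2⟩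
  · intro a _ b _ hab
    simp only at hab
    omega

lemma one_le_S (ρ : ℝ) {N : ℕ} (hN : 1 ≤ N) : 1 ≤ S ρ N := by
  classical
  unfold S
  rw [Nat.one_le_iff_ne_zero, ← Nat.pos_iff_ne_zero, Finset.card_pos]
  refine ⟨1, ?_⟩
  rw [mem_filter, mem_Icc]
  refine ⟨⟨le_refl _, hN⟩, 1, ?_, ?_⟩
  · have e : C^[1] 1 = 6 := by decide
    rw [e, Nat.cast_one, Real.one_rpow]
    norm_num
  · intro j hj
    have hc : j = 0 ∨ j = 1 := by omega
    rcases hc with h | h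
    · subst h
      decide
    · subst h
      decide

/-- The lower bound. -/
theorem lower {θ : ℝ} (hθ : IsThetaStar θ) {ρ : ℝ} (hρ1 : 1 < ρ) (hρ2 : ρ ≤ 117 / 100) :
    ∃ c : ℝ, 0 < c ∧ ∀ N : ℕ, 1 ≤ N → c * (N : ℝ) ^ (1 - θ * (ρ - 1)) ≤ (S ρ N : ℝ) := by
  obtain ⟨hθ0, w, hw, hv⟩ := hθ
  have hE := eqs_of hv
  have hlt := theta_lt hθ0 hw hE
  have hgt := theta_gt hθ0 hw hE
  obtain ⟨κ, hκ, hG⟩ := good_of hgt.le hw hE
  set γ : ℝ := ρ - 1 with hγ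
  have hγ0 : 0 < γ := by linarith
  have hγ1 : γ ≤ 17 / 100 := by linarith
  set v5 : ℝ := vN κ w 5 with hv5
  have hv5pos : 0 < v5 := hG.vpos 5 (by norm_num)
  -- the number of rounds
  obtain ⟨p, hp⟩ : ∃ p : ℕ, ((12 : ℝ) / 25) ^ p < v5 / 2 :=
    exists_pow_lt_of_lt_one (by positivity) (by norm_num)
  set q : ℝ := ((12 : ℝ) / 25) ^ p with hq
  have hq0 : 0 < q := by positivity
  have hq1 : q ≤ 1 := pow_le_one₀ (by norm_num) (by norm_num)
  set δ : ℝ := 2 / 45 - (θ - 2) * γ with hδ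
  have hδ0 : 0 < δ := by
    have : (θ - 2) * γ ≤ (52 / 23 - 2) * (17 / 100) :=
      mul_le_mul (by linarith) hγ1 hγ0.le (by norm_num)
    have h2 : ((52 : ℝ) / 23 - 2) * (17 / 100) < 2 / 45 := by norm_num
    linarith
  set K0 : ℝ := (2 : ℝ) ^ (-θ) / (24 * 12 ^ p) with hK0
  have hK0pos : 0 < K0 := by positivity
  set B' : ℝ := 200000 * uN 5 * q ^ (-2 : ℝ) with hB'
  have hu5 : 0 < uN 5 := hG.upos 5 (by norm_num)
  have hB'pos : 0 < B' := by positivity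
  have hexp1 : 1 - θ * γ ≤ 1 := by nlinarith
  have hev : ∀ᶠ N : ℕ in Filter.atTop, B' * (N : ℝ) ^ (-δ) < K0 := by
    have h1 : Filter.Tendsto (fun N : ℕ => B' * (N : ℝ) ^ (-δ))
        Filter.atTop (nhds (B' * 0)) :=
      ((tendsto_rpow_neg_atTop hδ0).comp tendsto_natCast_atTop_atTop).const_mul _
    rw [mul_zero] at h1
    exact h1.eventually (gt_mem_nhds hK0pos)
  have hev2 : ∀ᶠ N : ℕ in Filter.atTop, 1 / (5 * q) ≤ (N : ℝ) ^ γ :=
    ((tendsto_rpow_atTop hγ0).comp tendsto_natCast_atTop_atTop).eventually_ge_atTop _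
  obtain ⟨M1, hM1⟩ := Filter.eventually_atTop.mp hev
  obtain ⟨M2, hM2⟩ := Filter.eventually_atTop.mp hev2
  set M' : ℕ := M1 + M2 + 12 * 12 ^ p with hM'
  have h12p : 0 < 12 ^ p := by positivity
  have hM'pos : (0 : ℝ) < M' := by
    have : 0 < M' := by omega
    exact_mod_cast this
  refine ⟨min K0 (1 / M'), lt_min hK0pos (by positivity), ?_⟩
  intro N hN
  have hN1 : (1 : ℝ) ≤ N := by exact_mod_cast hN
  have hN0 : (0 : ℝ) < N := by linarith
  have hpow : 0 < (N : ℝ) ^ (1 - θ * γ) := Real.rpow_pos_of_pos hN0 _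
  rcases lt_or_ge N M' with hlt' | hge
  · -- small N
    have h1 : (N : ℝ) ^ (1 - θ * γ) ≤ N := by
      calc (N : ℝ) ^ (1 - θ * γ) ≤ (N : ℝ) ^ (1 : ℝ) :=
            Real.rpow_le_rpow_of_exponent_le hN1 hexp1
        _ = N := Real.rpow_one _
    have h2 : (N : ℝ) ≤ M' := by exact_mod_cast hlt'.le
    have h3 : min K0 (1 / M') * (N : ℝ) ^ (1 - θ * γ) ≤ 1 := by
      calc min K0 (1 / M') * (N : ℝ) ^ (1 - θ * γ) ≤ (1 / M') * M' :=
            mul_le_mul (min_le_right _ _) (h1.trans h2) hpow.le (by positivity)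
        _ = 1 := by field_simp
    have h5 : (1 : ℝ) ≤ (S ρ N : ℝ) := by exact_mod_cast one_le_S ρ hN
    linarith
  · -- large N
    have hsmall := hM1 N (by omega)
    have hNγ := hM2 N (by omega)
    have hcnt := NL_le_S N hρ1.le
    have hγp : 0 < (N : ℝ) ^ γ := Real.rpow_pos_of_pos hN0 _
    obtain ⟨A', Q', hA', hQ2, hQ3, hbo⟩ := boosts (L := 2 * (N : ℝ) ^ γ) (R := 1)
      (by positivity) (by norm_num) (by norm_num) (N / 6) p 5 1 (by norm_num) (by norm_num)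
      (by norm_num)
    rw [← hq, mul_one] at hbo
    have hL : (1 : ℝ) / 5 ≤ q * (2 * (N : ℝ) ^ γ) := by
      have h1 : q * (1 / (5 * q)) ≤ q * (N : ℝ) ^ γ := mul_le_mul_of_nonneg_left hNγ hq0.le
      have h2 : q * (1 / (5 * q)) = 1 / 5 := by field_simp
      rw [h2] at h1
      have h3 : 0 < q * (N : ℝ) ^ γ := by positivity
      linarith
    have hmain := mainL hG (N / 6 / 12 ^ p) A' Q' (q * (2 * (N : ℝ) ^ γ)) q hQ2 hQ3 hL hq0
    rw [hA', ← hv5] at hmain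
    have hall : (K θ 2 (2 / 45) 200000 v5 (uN 5) (q * (2 * (N : ℝ) ^ γ)) q
        ((N / 6 / 12 ^ p : ℕ) : ℝ) : ℝ) ≤ (S ρ N : ℝ) := by
      refine hmain.trans ?_
      exact_mod_cast hbo.trans hcnt
    refine le_trans ?_ hall
    set T : ℝ := ((N / 6 / 12 ^ p : ℕ) : ℝ) with hT
    have hT1 : (N : ℝ) / (12 * 12 ^ p) ≤ T := by
      rw [div_le_iff₀ (by positivity), hT]
      have h1 : N ≤ (N / 6 / 12 ^ p) * (12 * 12 ^ p) := by
        rw [Nat.div_div_eq_div_mul]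
        have h2 : 1 ≤ N / (6 * 12 ^ p) := by
          rw [Nat.le_div_iff_mul_le (by positivity)]
          omega
        have h3 := Nat.div_add_mod N (6 * 12 ^ p)
        have h4 := Nat.mod_lt N (show 0 < 6 * 12 ^ p by positivity)
        set X := N / (6 * 12 ^ p) with hX
        have h5 : X * (12 * 12 ^ p) = 2 * (6 * 12 ^ p * X) := by ring
        have h6 : 6 * 12 ^ p ≤ 6 * 12 ^ p * X := Nat.le_mul_of_pos_right _ h2
        rw [h5]
        omega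
      exact_mod_cast h1
    have hT2 : T ≤ N := by
      rw [hT]
      have : N / 6 / 12 ^ p ≤ N := (Nat.div_le_self _ _).trans (Nat.div_le_self _ _)
      exact_mod_cast this
    have hT0 : 0 ≤ T := by
      rw [hT]
      exact Nat.cast_nonneg _
    have hqθ0 : 0 < q ^ (-θ) := Real.rpow_pos_of_pos hq0 _
    -- gain of the rounds
    have hgain : 2 ≤ v5 * q ^ (-θ) := by
      have h1 : q ^ θ ≤ q := by
        calc q ^ θ ≤ q ^ (1 : ℝ) :=
              Real.rpow_le_rpow_of_exponent_ge hq0 hq1 (by linarith)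
          _ = q := Real.rpow_one _
      have h2 : q ^ θ ≤ v5 / 2 := h1.trans hp.le
      have h3 : q ^ θ * q ^ (-θ) = 1 := by
        rw [← Real.rpow_add hq0]
        simp
      nlinarith
    have f0 : (q / (q * (2 * (N : ℝ) ^ γ))) ^ θ = (2 : ℝ) ^ (-θ) * (N : ℝ) ^ (-(θ * γ)) := by
      have e1 : q / (q * (2 * (N : ℝ) ^ γ)) = (2 * (N : ℝ) ^ γ)⁻¹ := by
        field_simp
      rw [e1, Real.inv_rpow (by positivity), ← Real.rpow_neg (by positivity),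
        Real.mul_rpow (by norm_num) hγp.le, ← Real.rpow_mul hN0.le]
      congr 2
      ring
    have f1 : (q * (2 * (N : ℝ) ^ γ)) ^ (-θ) =
        q ^ (-θ) * ((2 : ℝ) ^ (-θ) * (N : ℝ) ^ (-(θ * γ))) := by
      rw [Real.mul_rpow hq0.le (by positivity), Real.mul_rpow (by norm_num) hγp.le,
        ← Real.rpow_mul hN0.le]
      congr 3
      ring
    have f2 : (q * (2 * (N : ℝ) ^ γ)) ^ (-2 : ℝ) ≤ q ^ (-2 : ℝ) * (N : ℝ) ^ (-(2 * γ)) := by
      rw [Real.mul_rpow hq0.le (by positivity), Real.mul_rpow (by norm_num) hγp.le,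
        ← Real.rpow_mul hN0.le]
      have e1 : (2 : ℝ) ^ (-2 : ℝ) ≤ 1 := by
        rw [Real.rpow_neg (by norm_num)]
        norm_num
      have e2 : (N : ℝ) ^ (γ * -2) = (N : ℝ) ^ (-(2 * γ)) := by
        congr 1
        ring
      rw [e2]
      have e3 : 0 ≤ (N : ℝ) ^ (-(2 * γ)) := Real.rpow_nonneg hN0.le _
      refine mul_le_mul_of_nonneg_left ?_ (by positivity)
      nlinarith
    have e9 : (N : ℝ) ^ (1 - θ * γ) = N * (N : ℝ) ^ (-(θ * γ)) := by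
      have e9' : 1 - θ * γ = 1 + -(θ * γ) := by ring
      rw [e9', Real.rpow_add hN0, Real.rpow_one]
    have g1 : 2 * K0 * (N : ℝ) ^ (1 - θ * γ) ≤
        v5 * T * (q * (2 * (N : ℝ) ^ γ)) ^ (-θ) - T * (q / (q * (2 * (N : ℝ) ^ γ))) ^ θ := by
      rw [f0, f1]
      have e1 : v5 * T * (q ^ (-θ) * ((2 : ℝ) ^ (-θ) * (N : ℝ) ^ (-(θ * γ)))) -
          T * ((2 : ℝ) ^ (-θ) * (N : ℝ) ^ (-(θ * γ))) =
          (v5 * q ^ (-θ) - 1) * (T * ((2 : ℝ) ^ (-θ) * (N : ℝ) ^ (-(θ * γ)))) := by ring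
      rw [e1]
      have e2 : 0 ≤ T * ((2 : ℝ) ^ (-θ) * (N : ℝ) ^ (-(θ * γ))) := by positivity
      have e3 : T * ((2 : ℝ) ^ (-θ) * (N : ℝ) ^ (-(θ * γ))) ≤
          (v5 * q ^ (-θ) - 1) * (T * ((2 : ℝ) ^ (-θ) * (N : ℝ) ^ (-(θ * γ)))) := by
        nlinarith
      refine le_trans ?_ e3
      have e4 : 2 * K0 * (N : ℝ) ^ (1 - θ * γ) =
          (N : ℝ) / (12 * 12 ^ p) * ((2 : ℝ) ^ (-θ) * (N : ℝ) ^ (-(θ * γ))) := by
        rw [e9, hK0]
        field_simp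
        ring
      rw [e4]
      exact mul_le_mul_of_nonneg_right hT1 (by positivity)
    have g2 : 200000 * uN 5 * T ^ (1 - (2 / 45 : ℝ)) * (q * (2 * (N : ℝ) ^ γ)) ^ (-2 : ℝ) ≤
        B' * (N : ℝ) ^ (-δ) * (N : ℝ) ^ (1 - θ * γ) := by
      have e1 : T ^ (1 - (2 / 45 : ℝ)) ≤ (N : ℝ) ^ (1 - (2 / 45 : ℝ)) :=
        Real.rpow_le_rpow hT0 hT2 (by norm_num)
      have e2 : (N : ℝ) ^ (1 - (2 / 45 : ℝ)) * (N : ℝ) ^ (-(2 * γ)) =
          (N : ℝ) ^ (-δ) * (N : ℝ) ^ (1 - θ * γ) := by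
        rw [← Real.rpow_add hN0, ← Real.rpow_add hN0]
        congr 1
        rw [hδ]
        ring
      calc 200000 * uN 5 * T ^ (1 - (2 / 45 : ℝ)) * (q * (2 * (N : ℝ) ^ γ)) ^ (-2 : ℝ)
          ≤ 200000 * uN 5 * (N : ℝ) ^ (1 - (2 / 45 : ℝ)) *
            (q ^ (-2 : ℝ) * (N : ℝ) ^ (-(2 * γ))) := by
            refine mul_le_mul ?_ f2 (by positivity) (by positivity)
            exact mul_le_mul_of_nonneg_left e1 (by positivity)
        _ = B' * ((N : ℝ) ^ (1 - (2 / 45 : ℝ)) * (N : ℝ) ^ (-(2 * γ))) := by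
            rw [hB']
            ring
        _ = B' * (N : ℝ) ^ (-δ) * (N : ℝ) ^ (1 - θ * γ) := by
            rw [e2]
            ring
    have g3 : B' * (N : ℝ) ^ (-δ) * (N : ℝ) ^ (1 - θ * γ) ≤ K0 * (N : ℝ) ^ (1 - θ * γ) :=
      mul_le_mul_of_nonneg_right hsmall.le hpow.le
    have g4 : min K0 (1 / M') * (N : ℝ) ^ (1 - θ * γ) ≤ K0 * (N : ℝ) ^ (1 - θ * γ) :=
      mul_le_mul_of_nonneg_right (min_le_left _ _) hpow.le
    unfold K H
    linarith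

end Pool.Agent.H12.EU
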