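import Pool.Agent.H12.EU.LowMain

/-!
Bounds which are uniform in the factor.
-/

namespace Pool.Agent.H12.EU

open Pool.Agent.H83.EX Finset

/-- The trajectory of `n` rises above `L * n` before it falls below `n`. -/
def Rises (L : ℝ) (n : ℕ) : Prop :=
  ∃ i : ℕ, L * n < (C^[i] n : ℝ) ∧ ∀ j : ℕ, j ≤ i → n ≤ C^[j] n

open Classical in
/-- The number of `n ≤ N` whose trajectory rises above `L * n` before it falls below `n`. -/
noncomputable def R (L : ℝ) (N : ℕ) : ℕ := ((Icc 1 N).filter (fun n => Rises L n)).card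

open Classical in
/-- The number of `n ≤ N` whose trajectory rises above `L * n` before it falls below `n` or never
falls below `n`. -/
noncomputable def R' (L : ℝ) (N : ℕ) : ℕ :=
  ((Icc 1 N).filter (fun n => Rises L n ∨ Stays n)).card

lemma reach_of_rises {L : ℝ} (hL : 0 ≤ L) {N n : ℕ} (h1 : N < 2 * n)
    (h : Rises L n ∨ Stays n) : Reach (L * ((N : ℝ) / 2)) ((N : ℝ) / 2) n := by
  have h2 : (N : ℝ) / 2 ≤ n := by
    have : (N : ℝ) < ((2 * n : ℕ) : ℝ) := by exact_mod_cast h1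
    push_cast at this
    linarith
  rcases h with ⟨i, hi, hj⟩ | hj
  · refine Or.inl ⟨i, ?_, ?_⟩
    · exact (mul_le_mul_of_nonneg_left h2 hL).trans hi.le
    · intro j hji
      have : (n : ℝ) ≤ (C^[j] n : ℝ) := by exact_mod_cast hj j hji
      linarith
  · refine Or.inr ?_
    intro j
    have : (n : ℝ) ≤ (C^[j] n : ℝ) := by exact_mod_cast hj j
    linarith

open Classical in
lemma dyadic_le_L {L : ℝ} (hL : 0 ≤ L) (N : ℕ) :
    ((Icc 1 N).filter (fun n => N < 2 * n ∧ (Rises L n ∨ Stays n))).card ≤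
      ∑ j ∈ range 6, NU j 1 (L * ((N : ℝ) / 2)) ((N : ℝ) / 2) ((N + 1 + 6 - 1 - j) / 6) := by
  have h := card_split_le 6 (N + 1) (by norm_num)
    (fun j s => Reach (L * ((N : ℝ) / 2)) ((N : ℝ) / 2) (j + 6 * 1 * s))
    (fun n => N < 2 * n ∧ (Rises L n ∨ Stays n))
    (by
      intro j hj s hs hq
      have e : 6 * s + j = j + 6 * 1 * s := by ring
      rw [e] at hq
      exact reach_of_rises hL hq.1 hq.2)
  refine le_trans (Finset.card_le_card ?_) h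
  intro n hn
  rw [mem_filter, mem_Icc] at hn
  rw [mem_filter, mem_range]
  exact ⟨by omega, hn.2⟩

/-- The bound for the starting values in the upper half of `[1, N]`, uniform in `L`. -/
lemma dyadic_bound_L {θ B : ℝ} {v : ℕ → ℝ} (hG : GoodU θ B v uU) :
    ∃ C1 : ℝ, 0 < C1 ∧ ∀ N : ℕ, 2 ≤ N → ∀ L : ℝ, 1 ≤ L → ∀ j : ℕ, j < 6 →
      (NU j 1 (L * ((N : ℝ) / 2)) ((N : ℝ) / 2) ((N + 1 + 6 - 1 - j) / 6) : ℝ) ≤
        C1 * ((N : ℝ) * L ^ (-θ) + (N : ℝ) ^ (43 / 50 : ℝ)) := by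
  have hθ1 := hG.hθ1
  have hθ3 := hG.hθ3
  have hB := hG.hB
  set V : ℝ := v 0 + v 1 + v 2 + v 3 + v 4 + v 5 with hV
  have v0 := hG.v1le 0 (by norm_num)
  have v1 := hG.v1le 1 (by norm_num)
  have v2 := hG.v1le 2 (by norm_num)
  have v3 := hG.v1le 3 (by norm_num)
  have v4 := hG.v1le 4 (by norm_num)
  have v5 := hG.v1le 5 (by norm_num)
  have hV0 : 0 < V := by rw [hV]; linarith
  have hvV : ∀ r, r < 6 → v r ≤ V := by
    intro r hr
    interval_cases r <;> rw [hV] <;> linarith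
  set W : ℝ := (4 : ℝ) ^ θ with hW
  have hW0 : 0 < W := by positivity
  refine ⟨Real.exp θ * (V * W + B * 5 * 4), by positivity, ?_⟩
  intro N hN L hL j hj
  have hN2 : (2 : ℝ) ≤ N := by exact_mod_cast hN
  have hN0 : (0 : ℝ) < N := by linarith
  have hN1 : (1 : ℝ) ≤ N := by linarith
  have hL0 : 0 < L := by linarith
  have hh1 : 1 ≤ (N : ℝ) / 2 := by linarith
  have hx : (1 : ℝ) ≤ L * ((N : ℝ) / 2) := by nlinarith
  have hx0 : 0 < L * ((N : ℝ) / 2) := by linarith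
  set T : ℕ := (N + 1 + 6 - 1 - j) / 6 with hT
  have hTN : T ≤ N := by omega
  have hpow : N ≤ 2 ^ N := (Nat.lt_two_pow_self).le
  have hm := mainU hG (x := L * ((N : ℝ) / 2)) (R := (N : ℝ) / 2) (by linarith) (by linarith)
    N T (hTN.trans hpow) j 1 (N : ℝ) (by norm_num) (by norm_num) hN0.le (by
      intro s hs
      have : j + 6 * 1 * s ≤ N := by omega
      exact_mod_cast this)
  refine hm.trans ?_
  have hjr : j % 6 < 6 := Nat.mod_lt _ (by norm_num)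
  have hTr : (T : ℝ) ≤ N := by exact_mod_cast hTN
  have hT0 : (0 : ℝ) ≤ T := Nat.cast_nonneg T
  -- the factor
  have hz : ((1 + 1 / (2 * ((N : ℝ) / 2))) ^ θ) ^ N ≤ Real.exp θ := by
    have e1 : 1 + 1 / (2 * ((N : ℝ) / 2)) = 1 + 1 / N := by
      congr 2
      ring
    rw [e1]
    have h1 : 1 + 1 / (N : ℝ) ≤ Real.exp (1 / N) := by
      have := Real.add_one_le_exp (1 / (N : ℝ))
      linarith
    have h2 : (1 + 1 / (N : ℝ)) ^ θ ≤ Real.exp (1 / N) ^ θ :=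
      Real.rpow_le_rpow (by positivity) h1 (by linarith)
    have h3 : Real.exp (1 / N) ^ θ = Real.exp (θ / N) := by
      rw [← Real.exp_mul]
      congr 1
      ring
    rw [h3] at h2
    calc ((1 + 1 / (N : ℝ)) ^ θ) ^ N ≤ Real.exp (θ / N) ^ N :=
          pow_le_pow_left₀ (by positivity) h2 N
      _ = Real.exp θ := by
          rw [← Real.exp_nat_mul]
          congr 1
          field_simp
  have hGle : G θ B (v (j % 6)) (uU (j % 6)) (L * ((N : ℝ) / 2)) ((N : ℝ) / 2)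
      ((N : ℝ) + 1 / 4) T ≤ (V * W + B * 5 * 4) * ((N : ℝ) * L ^ (-θ) + (N : ℝ) ^ (43 / 50 : ℝ)) := by
    have hLθ : 0 < L ^ (-θ) := Real.rpow_pos_of_pos hL0 _
    have hNp : 0 < (N : ℝ) ^ (43 / 50 : ℝ) := Real.rpow_pos_of_pos hN0 _
    have a1 : (((N : ℝ) + 1 / 4) / (L * ((N : ℝ) / 2))) ^ θ ≤ W * L ^ (-θ) := by
      have b1 : ((N : ℝ) + 1 / 4) / (L * ((N : ℝ) / 2)) ≤ 4 * L⁻¹ := by
        rw [div_le_iff₀ hx0]
        have b2 : 4 * L⁻¹ * (L * ((N : ℝ) / 2)) = 2 * N := by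
          field_simp
          ring
        rw [b2]
        linarith
      calc (((N : ℝ) + 1 / 4) / (L * ((N : ℝ) / 2))) ^ θ
          ≤ (4 * L⁻¹) ^ θ := Real.rpow_le_rpow (by positivity) b1 (by linarith)
        _ = W * L ^ (-θ) := by
            rw [Real.mul_rpow (by positivity) (by positivity), Real.inv_rpow hL0.le,
              ← Real.rpow_neg hL0.le]
    have a2 : ((N : ℝ) + 1 / 4) / ((N : ℝ) / 2) ≤ 4 := by
      rw [div_le_iff₀ (by positivity)]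
      linarith
    have a3 : (T : ℝ) ^ (43 / 50 : ℝ) ≤ (N : ℝ) ^ (43 / 50 : ℝ) :=
      Real.rpow_le_rpow hT0 hTr (by norm_num)
    have hu5 := uU_le (j % 6)
    have hu0 := hG.upos _ hjr
    have hvj := hvV _ hjr
    have hv1 := hG.v1le _ hjr
    have a6 : v (j % 6) * T * (((N : ℝ) + 1 / 4) / (L * ((N : ℝ) / 2))) ^ θ ≤
        V * W * ((N : ℝ) * L ^ (-θ)) := by
      calc v (j % 6) * T * (((N : ℝ) + 1 / 4) / (L * ((N : ℝ) / 2))) ^ θ
          ≤ V * N * (W * L ^ (-θ)) := by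
            refine mul_le_mul ?_ a1 (by positivity) (by positivity)
            exact mul_le_mul hvj hTr hT0 hV0.le
        _ = V * W * ((N : ℝ) * L ^ (-θ)) := by ring
    have a7 : B * uU (j % 6) * (T : ℝ) ^ (43 / 50 : ℝ) * (((N : ℝ) + 1 / 4) / ((N : ℝ) / 2)) ≤
        B * 5 * 4 * (N : ℝ) ^ (43 / 50 : ℝ) := by
      calc B * uU (j % 6) * (T : ℝ) ^ (43 / 50 : ℝ) * (((N : ℝ) + 1 / 4) / ((N : ℝ) / 2))
          ≤ B * 5 * (N : ℝ) ^ (43 / 50 : ℝ) * 4 := by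
            refine mul_le_mul ?_ a2 (by positivity) (by positivity)
            refine mul_le_mul ?_ a3 (by positivity) (by positivity)
            exact mul_le_mul_of_nonneg_left hu5 hB
        _ = B * 5 * 4 * (N : ℝ) ^ (43 / 50 : ℝ) := by ring
    have a8 : 0 ≤ V * W * (N : ℝ) ^ (43 / 50 : ℝ) := by positivity
    have a9 : 0 ≤ B * 5 * 4 * ((N : ℝ) * L ^ (-θ)) := by positivity
    unfold G
    have a10 : (V * W + B * 5 * 4) * ((N : ℝ) * L ^ (-θ) + (N : ℝ) ^ (43 / 50 : ℝ)) =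
        V * W * ((N : ℝ) * L ^ (-θ)) + B * 5 * 4 * (N : ℝ) ^ (43 / 50 : ℝ) +
        (V * W * (N : ℝ) ^ (43 / 50 : ℝ) + B * 5 * 4 * ((N : ℝ) * L ^ (-θ))) := by ring
    rw [a10]
    linarith
  have hG0 : 0 ≤ G θ B (v (j % 6)) (uU (j % 6)) (L * ((N : ℝ) / 2)) ((N : ℝ) / 2)
      ((N : ℝ) + 1 / 4) T :=
    G_nonneg hB (by linarith [hG.v1le _ hjr]) (hG.upos _ hjr).le hx0 (by linarith)
      (by linarith) hT0
  calc ((1 + 1 / (2 * ((N : ℝ) / 2))) ^ θ) ^ N * G θ B (v (j % 6)) (uU (j % 6))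
        (L * ((N : ℝ) / 2)) ((N : ℝ) / 2) ((N : ℝ) + 1 / 4) T
      ≤ Real.exp θ * ((V * W + B * 5 * 4) * ((N : ℝ) * L ^ (-θ) + (N : ℝ) ^ (43 / 50 : ℝ))) :=
        mul_le_mul hz hGle hG0 (Real.exp_pos _).le
    _ = Real.exp θ * (V * W + B * 5 * 4) * ((N : ℝ) * L ^ (-θ) + (N : ℝ) ^ (43 / 50 : ℝ)) := by
        ring

open Classical in
lemma R_split (L : ℝ) (N : ℕ) :
    R' L N ≤ ((Icc 1 N).filter (fun n => N < 2 * n ∧ (Rises L n ∨ Stays n))).card +
      R' L (N / 2) := by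
  unfold R'
  refine le_trans (Finset.card_le_card ?_) (Finset.card_union_le _ _)
  intro n hn
  rw [mem_filter, mem_Icc] at hn
  rw [mem_union, mem_filter, mem_filter, mem_Icc, mem_Icc]
  by_cases h : N < 2 * n
  · exact Or.inl ⟨hn.1, h, hn.2⟩
  · exact Or.inr ⟨⟨hn.1.1, by omega⟩, hn.2⟩

lemma R_le (L : ℝ) (N : ℕ) : R' L N ≤ N := by
  classical
  unfold R'
  refine (Finset.card_filter_le _ _).trans ?_
  simp

/-- The upper bound, uniform in `L`. -/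
theorem upper_L {θ : ℝ} (hθ : IsThetaStar θ) :
    ∃ C0 : ℝ, 0 < C0 ∧ ∀ N : ℕ, 1 ≤ N → ∀ L : ℝ, 1 ≤ L →
      (R' L N : ℝ) ≤ C0 * ((N : ℝ) * L ^ (-θ) + (N : ℝ) ^ (43 / 50 : ℝ)) := by
  classical
  obtain ⟨hθ0, w, hw, hv⟩ := hθ
  have hE := eqs_of hv
  have hlt := theta_lt hθ0 hw hE
  have hgt := theta_gt hθ0 hw hE
  obtain ⟨B, v, hG⟩ := goodU_of (by linarith) (by linarith) hw hE
  obtain ⟨C1, hC1, hD⟩ := dyadic_bound_L hG
  have h2e : (1 / 2 : ℝ) ^ (43 / 50 : ℝ) ≤ 551 / 1000 := by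
    have h2 : (1 / 2 : ℝ) ^ (43 / 50 : ℝ) = (2 : ℝ) ^ (-(43 / 50) : ℝ) := by
      rw [one_div, Real.inv_rpow (by norm_num), Real.rpow_neg (by norm_num)]
    rw [h2]
    have := two_powU
    linarith
  refine ⟨18 * C1 + 1, by positivity, ?_⟩
  intro N
  induction N using Nat.strong_induction_on with
  | _ N ih =>
    intro hN L hL
    have hN1 : (1 : ℝ) ≤ N := by exact_mod_cast hN
    have hN0 : (0 : ℝ) < N := by linarith
    have hL0 : 0 < L := by linarith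
    have hp1 : 1 ≤ (N : ℝ) ^ (43 / 50 : ℝ) := Real.one_le_rpow hN1 (by norm_num)
    have hLθ : 0 < L ^ (-θ) := Real.rpow_pos_of_pos hL0 _
    have hNL : 0 < (N : ℝ) * L ^ (-θ) := by positivity
    rcases Nat.lt_or_ge N 2 with h | h
    · have hN' : N = 1 := by omega
      have h1 : (R' L N : ℝ) ≤ N := by exact_mod_cast R_le L N
      have h2 : (N : ℝ) = 1 := by rw [hN']; norm_num
      nlinarith
    · have h1 := R_split L N
      have h2 := dyadic_le_L hL0.le N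
      have h3 : (R' L N : ℝ) ≤ (∑ j ∈ range 6, (NU j 1 (L * ((N : ℝ) / 2)) ((N : ℝ) / 2)
          ((N + 1 + 6 - 1 - j) / 6) : ℝ)) + R' L (N / 2) := by
        have h4 : R' L N ≤ (∑ j ∈ range 6, NU j 1 (L * ((N : ℝ) / 2)) ((N : ℝ) / 2)
          ((N + 1 + 6 - 1 - j) / 6)) + R' L (N / 2) := by omega
        exact_mod_cast h4
      have h5 : (∑ j ∈ range 6, (NU j 1 (L * ((N : ℝ) / 2)) ((N : ℝ) / 2)
          ((N + 1 + 6 - 1 - j) / 6) : ℝ)) ≤
          ∑ j ∈ range 6, C1 * ((N : ℝ) * L ^ (-θ) + (N : ℝ) ^ (43 / 50 : ℝ)) :=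
        Finset.sum_le_sum (fun j hj => hD N h L hL j (mem_range.mp hj))
      rw [Finset.sum_const, Finset.card_range, nsmul_eq_mul] at h5
      have h6 := ih (N / 2) (by omega) (by omega) L hL
      have h8 : ((N / 2 : ℕ) : ℝ) ≤ 1 / 2 * N := by
        have : (N / 2) * 2 ≤ N := by omega
        have h9 : (((N / 2) * 2 : ℕ) : ℝ) ≤ (N : ℝ) := by exact_mod_cast this
        push_cast at h9
        linarith
      have h7 : ((N / 2 : ℕ) : ℝ) ^ (43 / 50 : ℝ) ≤ 551 / 1000 * (N : ℝ) ^ (43 / 50 : ℝ) := by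
        calc ((N / 2 : ℕ) : ℝ) ^ (43 / 50 : ℝ) ≤ (1 / 2 * (N : ℝ)) ^ (43 / 50 : ℝ) :=
              Real.rpow_le_rpow (Nat.cast_nonneg _) h8 (by norm_num)
          _ = (1 / 2 : ℝ) ^ (43 / 50 : ℝ) * (N : ℝ) ^ (43 / 50 : ℝ) :=
              Real.mul_rpow (by norm_num) hN0.le
          _ ≤ 551 / 1000 * (N : ℝ) ^ (43 / 50 : ℝ) :=
              mul_le_mul_of_nonneg_right h2e (by positivity)
      have h7' : ((N / 2 : ℕ) : ℝ) * L ^ (-θ) ≤ 551 / 1000 * ((N : ℝ) * L ^ (-θ)) := by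
        have := mul_le_mul_of_nonneg_right h8 hLθ.le
        nlinarith
      have h10 : (18 * C1 + 1) * (((N / 2 : ℕ) : ℝ) * L ^ (-θ) +
          ((N / 2 : ℕ) : ℝ) ^ (43 / 50 : ℝ)) ≤
          (18 * C1 + 1) * (551 / 1000 * ((N : ℝ) * L ^ (-θ) + (N : ℝ) ^ (43 / 50 : ℝ))) := by
        refine mul_le_mul_of_nonneg_left ?_ (by positivity)
        linarith
      have h11 : 0 < C1 * ((N : ℝ) * L ^ (-θ) + (N : ℝ) ^ (43 / 50 : ℝ)) := by positivity
      have h12 : 0 < (N : ℝ) * L ^ (-θ) + (N : ℝ) ^ (43 / 50 : ℝ) := by positivity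
      have e6 : ((6 : ℕ) : ℝ) = 6 := by norm_num
      rw [e6] at h5
      set X : ℝ := (N : ℝ) * L ^ (-θ) + (N : ℝ) ^ (43 / 50 : ℝ) with hX
      nlinarith [h3, h5, h6, h10, h11, h12]

lemma R_le_R' (L : ℝ) (N : ℕ) : R L N ≤ R' L N := by
  classical
  unfold R R'
  refine Finset.card_le_card ?_
  intro n hn
  rw [mem_filter] at hn ⊢
  exact ⟨hn.1, Or.inl hn.2⟩

lemma NL_le_R (N : ℕ) {L L' : ℝ} (hL : 0 < L') (hLL : L ≤ L') :
    NL 5 1 (2 * L') 1 (N / 6) ≤ R L N := by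
  classical
  unfold NL R
  refine Finset.card_le_card_of_injOn (fun s => 5 + 6 * 1 * s) ?_ ?_
  · intro s hs
    simp only [coe_filter, mem_range, Set.mem_ofPred_eq] at hs
    obtain ⟨hs1, i, hi, hj⟩ := hs
    simp only [coe_filter, mem_Icc, Set.mem_ofPred_eq]
    have h1 : 1 ≤ 5 + 6 * 1 * s := by omega
    have h2 : 5 + 6 * 1 * s ≤ N := by omega
    refine ⟨⟨h1, h2⟩, i, ?_, ?_⟩
    · have h3 : (1 : ℝ) ≤ ((5 + 6 * 1 * s : ℕ) : ℝ) := by exact_mod_cast h1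
      refine lt_of_lt_of_le ?_ hi
      nlinarith
    · intro j hji
      have h4 := hj j hji
      rw [one_mul] at h4
      exact_mod_cast h4
  · intro a _ b _ hab
    simp only at hab
    omega

/-- The lower bound, uniform in `L`. -/
theorem lower_L {θ : ℝ} (hθ : IsThetaStar θ) :
    ∃ c : ℝ, 0 < c ∧ ∃ N₀ : ℕ, ∀ N : ℕ, N₀ ≤ N → ∀ L : ℝ, 1 ≤ L → L ≤ (N : ℝ) ^ (17 / 100 : ℝ) →
      c * ((N : ℝ) * L ^ (-θ)) ≤ (R L N : ℝ) := by
  obtain ⟨hθ0, w, hw, hv⟩ := hθ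
  have hE := eqs_of hv
  have hlt := theta_lt hθ0 hw hE
  have hgt := theta_gt hθ0 hw hE
  obtain ⟨κ, hκ, hG⟩ := good_of hgt.le hw hE
  set v5 : ℝ := vN κ w 5 with hv5
  have hv5pos : 0 < v5 := hG.vpos 5 (by norm_num)
  obtain ⟨p, hp⟩ : ∃ p : ℕ, ((12 : ℝ) / 25) ^ p < v5 / 2 :=
    exists_pow_lt_of_lt_one (by positivity) (by norm_num)
  set q : ℝ := ((12 : ℝ) / 25) ^ p with hq
  have hq0 : 0 < q := by positivity
  have hq1 : q ≤ 1 := pow_le_one₀ (by norm_num) (by norm_num)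
  -- the enlarged factor is `2 * k * L`
  set k : ℝ := 1 + 1 / (10 * q) with hk
  have hk1 : 1 ≤ k := by
    rw [hk]
    have : 0 < 1 / (10 * q) := by positivity
    linarith
  have hk0 : 0 < k := by linarith
  set δ : ℝ := 2 / 45 - (θ - 2) * (17 / 100) with hδ
  have hδ0 : 0 < δ := by
    have : (θ - 2) * (17 / 100) ≤ (52 / 23 - 2) * (17 / 100) := by linarith
    have h2 : ((52 : ℝ) / 23 - 2) * (17 / 100) < 2 / 45 := by norm_num
    linarith
  set K0 : ℝ := (2 * k) ^ (-θ) / (24 * 12 ^ p) with hK0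
  have hK0pos : 0 < K0 := by positivity
  set B' : ℝ := 200000 * uN 5 * (q * (2 * k)) ^ (-2 : ℝ) with hB'
  have hu5 : 0 < uN 5 := hG.upos 5 (by norm_num)
  have hB'pos : 0 < B' := by positivity
  have hev : ∀ᶠ N : ℕ in Filter.atTop, B' * (N : ℝ) ^ (-δ) < K0 := by
    have h1 : Filter.Tendsto (fun N : ℕ => B' * (N : ℝ) ^ (-δ))
        Filter.atTop (nhds (B' * 0)) :=
      ((tendsto_rpow_neg_atTop hδ0).comp tendsto_natCast_atTop_atTop).const_mul _
    rw [mul_zero] at h1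
    exact h1.eventually (gt_mem_nhds hK0pos)
  obtain ⟨M1, hM1⟩ := Filter.eventually_atTop.mp hev
  have h12p : 0 < 12 ^ p := by positivity
  refine ⟨K0, hK0pos, M1 + 12 * 12 ^ p, ?_⟩
  intro N hN L hL hLN
  have hNpos : 1 ≤ N := by omega
  have hN1 : (1 : ℝ) ≤ N := by exact_mod_cast hNpos
  have hN0 : (0 : ℝ) < N := by linarith
  have hL0 : 0 < L := by linarith
  have hsmall := hM1 N (by omega)
  have hLk : L ≤ k * L := by nlinarith
  have hkL : 0 < k * L := by positivity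
  have hcnt := NL_le_R N hkL hLk
  obtain ⟨A', Q', hA', hQ2, hQ3, hbo⟩ := boosts (L := 2 * (k * L)) (R := 1)
    (by positivity) (by norm_num) (by norm_num) (N / 6) p 5 1 (by norm_num) (by norm_num)
    (by norm_num)
  rw [← hq, mul_one] at hbo
  have hLb : (1 : ℝ) / 5 ≤ q * (2 * (k * L)) := by
    have h1 : q * k = q + 1 / 10 := by
      rw [hk]
      field_simp
    have h2 : q * (2 * (k * L)) = 2 * ((q * k) * L) := by ring
    rw [h2, h1]
    nlinarith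
  have hmain := mainL hG (N / 6 / 12 ^ p) A' Q' (q * (2 * (k * L))) q hQ2 hQ3 hLb hq0
  rw [hA', ← hv5] at hmain
  have hall : (K θ 2 (2 / 45) 200000 v5 (uN 5) (q * (2 * (k * L))) q
      ((N / 6 / 12 ^ p : ℕ) : ℝ) : ℝ) ≤ (R L N : ℝ) := by
    refine hmain.trans ?_
    exact_mod_cast hbo.trans hcnt
  refine le_trans ?_ hall
  set T : ℝ := ((N / 6 / 12 ^ p : ℕ) : ℝ) with hT
  have hT1 : (N : ℝ) / (12 * 12 ^ p) ≤ T := by
    rw [div_le_iff₀ (by positivity), hT]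
    have h1 : N ≤ (N / 6 / 12 ^ p) * (12 * 12 ^ p) := by
      rw [Nat.div_div_eq_div_mul]
      have h2 : 1 ≤ N / (6 * 12 ^ p) := by
        rw [Nat.le_div_iff_mul_le (by positivity)]
        omega
      have h3 := Nat.div_add_mod N (6 * 12 ^ p)
      have h4 := Nat.mod_lt N (show 0 < 6 * 12 ^ p by positivity)
      set X := N / (6 * 12 ^ p) with hX
      have h5 : X * (12 * 12 ^ p) = 2 * (6 * 12 ^ p * X) := by ring
      have h6 : 6 * 12 ^ p ≤ 6 * 12 ^ p * X := Nat.le_mul_of_pos_right _ h2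
      rw [h5]
      omega
    exact_mod_cast h1
  have hT2 : T ≤ N := by
    rw [hT]
    have : N / 6 / 12 ^ p ≤ N := (Nat.div_le_self _ _).trans (Nat.div_le_self _ _)
    exact_mod_cast this
  have hT0 : 0 ≤ T := by
    rw [hT]
    exact Nat.cast_nonneg _
  have hqθ0 : 0 < q ^ (-θ) := Real.rpow_pos_of_pos hq0 _
  have hgain : 2 ≤ v5 * q ^ (-θ) := by
    have h1 : q ^ θ ≤ q := by
      calc q ^ θ ≤ q ^ (1 : ℝ) :=
            Real.rpow_le_rpow_of_exponent_ge hq0 hq1 (by linarith)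
        _ = q := Real.rpow_one _
    have h2 : q ^ θ ≤ v5 / 2 := h1.trans hp.le
    have h3 : q ^ θ * q ^ (-θ) = 1 := by
      rw [← Real.rpow_add hq0]
      simp
    nlinarith
  have hLθ : 0 < L ^ (-θ) := Real.rpow_pos_of_pos hL0 _
  have h2k : 0 < (2 * k) ^ (-θ) := Real.rpow_pos_of_pos (by positivity) _
  have e2kL : 2 * (k * L) = 2 * k * L := by ring
  have f0 : (q / (q * (2 * (k * L)))) ^ θ = (2 * k) ^ (-θ) * L ^ (-θ) := by
    have e1 : q / (q * (2 * (k * L))) = (2 * k * L)⁻¹ := by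
      field_simp
    rw [e1, Real.inv_rpow (by positivity), ← Real.rpow_neg (by positivity),
      Real.mul_rpow (by positivity) hL0.le]
  have f1 : (q * (2 * (k * L))) ^ (-θ) = q ^ (-θ) * ((2 * k) ^ (-θ) * L ^ (-θ)) := by
    rw [e2kL, Real.mul_rpow hq0.le (by positivity), Real.mul_rpow (by positivity) hL0.le]
  have f2 : (q * (2 * (k * L))) ^ (-2 : ℝ) = (q * (2 * k)) ^ (-2 : ℝ) * L ^ (-2 : ℝ) := by
    have e1 : q * (2 * (k * L)) = q * (2 * k) * L := by ring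
    rw [e1, Real.mul_rpow (by positivity) hL0.le]
  have g1 : 2 * K0 * ((N : ℝ) * L ^ (-θ)) ≤
      v5 * T * (q * (2 * (k * L))) ^ (-θ) - T * (q / (q * (2 * (k * L)))) ^ θ := by
    rw [f0, f1]
    have e1 : v5 * T * (q ^ (-θ) * ((2 * k) ^ (-θ) * L ^ (-θ))) -
        T * ((2 * k) ^ (-θ) * L ^ (-θ)) =
        (v5 * q ^ (-θ) - 1) * (T * ((2 * k) ^ (-θ) * L ^ (-θ))) := by ring
    rw [e1]
    have e2 : 0 ≤ T * ((2 * k) ^ (-θ) * L ^ (-θ)) := by positivity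
    have e3 : T * ((2 * k) ^ (-θ) * L ^ (-θ)) ≤
        (v5 * q ^ (-θ) - 1) * (T * ((2 * k) ^ (-θ) * L ^ (-θ))) := by
      nlinarith
    refine le_trans ?_ e3
    have e4 : 2 * K0 * ((N : ℝ) * L ^ (-θ)) =
        (N : ℝ) / (12 * 12 ^ p) * ((2 * k) ^ (-θ) * L ^ (-θ)) := by
      rw [hK0]
      field_simp
      ring
    rw [e4]
    exact mul_le_mul_of_nonneg_right hT1 (by positivity)
  have g2 : 200000 * uN 5 * T ^ (1 - (2 / 45 : ℝ)) * (q * (2 * (k * L))) ^ (-2 : ℝ) ≤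
      B' * (N : ℝ) ^ (-δ) * ((N : ℝ) * L ^ (-θ)) := by
    rw [f2]
    have e1 : T ^ (1 - (2 / 45 : ℝ)) ≤ (N : ℝ) ^ (1 - (2 / 45 : ℝ)) :=
      Real.rpow_le_rpow hT0 hT2 (by norm_num)
    have e2 : L ^ (-2 : ℝ) ≤ (N : ℝ) ^ ((θ - 2) * (17 / 100)) * L ^ (-θ) := by
      have h1 : L ^ (-2 : ℝ) = L ^ (θ - 2) * L ^ (-θ) := by
        rw [← Real.rpow_add hL0]
        congr 1
        ring
      rw [h1]
      refine mul_le_mul_of_nonneg_right ?_ hLθ.le
      calc L ^ (θ - 2) ≤ ((N : ℝ) ^ (17 / 100 : ℝ)) ^ (θ - 2) :=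
            Real.rpow_le_rpow hL0.le hLN (by linarith)
        _ = (N : ℝ) ^ ((θ - 2) * (17 / 100)) := by
            rw [← Real.rpow_mul hN0.le]
            congr 1
            ring
    have e3 : (N : ℝ) ^ (1 - (2 / 45 : ℝ)) * (N : ℝ) ^ ((θ - 2) * (17 / 100)) =
        (N : ℝ) ^ (-δ) * N := by
      rw [← Real.rpow_add hN0, ← Real.rpow_add_one hN0.ne']
      congr 1
      rw [hδ]
      ring
    calc 200000 * uN 5 * T ^ (1 - (2 / 45 : ℝ)) * ((q * (2 * k)) ^ (-2 : ℝ) * L ^ (-2 : ℝ))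
        ≤ 200000 * uN 5 * (N : ℝ) ^ (1 - (2 / 45 : ℝ)) *
          ((q * (2 * k)) ^ (-2 : ℝ) * ((N : ℝ) ^ ((θ - 2) * (17 / 100)) * L ^ (-θ))) := by
          refine mul_le_mul ?_ ?_ (by positivity) (by positivity)
          · exact mul_le_mul_of_nonneg_left e1 (by positivity)
          · exact mul_le_mul_of_nonneg_left e2 (by positivity)
      _ = B' * ((N : ℝ) ^ (1 - (2 / 45 : ℝ)) * (N : ℝ) ^ ((θ - 2) * (17 / 100))) * L ^ (-θ) := by
          rw [hB']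
          ring
      _ = B' * (N : ℝ) ^ (-δ) * ((N : ℝ) * L ^ (-θ)) := by
          rw [e3]
          ring
  have g3 : B' * (N : ℝ) ^ (-δ) * ((N : ℝ) * L ^ (-θ)) ≤ K0 * ((N : ℝ) * L ^ (-θ)) :=
    mul_le_mul_of_nonneg_right hsmall.le (by positivity)
  unfold K H
  linarith

end Pool.Agent.H12.EU
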