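import Pool.Agent.H83.EX.Fin

/-!
Upper bound for the number of starting values whose trajectory reaches a height before it falls
below a barrier.
-/

namespace Pool.Agent.H12.EU

open Pool.Agent.H83.EX Finset

/-- The trajectory of `n` reaches `x` before it falls below `R`, or never falls below `R`. -/
def Reach (x R : ℝ) (n : ℕ) : Prop :=
  (∃ i : ℕ, x ≤ (C^[i] n : ℝ) ∧ ∀ j : ℕ, j ≤ i → R ≤ (C^[j] n : ℝ)) ∨
    ∀ j : ℕ, R ≤ (C^[j] n : ℝ)

open Classical in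
/-- The number of `s < T` such that the trajectory of `A + 6 Q s` reaches `x` before it falls
below `R` or never falls below `R`. -/
noncomputable def NU (A Q : ℕ) (x R : ℝ) (T : ℕ) : ℕ :=
  ((range T).filter (fun s => Reach x R (A + 6 * Q * s))).card

lemma reach_ge {x R : ℝ} {n : ℕ} (h : Reach x R n) : R ≤ n := by
  rcases h with ⟨i, _, h2⟩ | h2
  · have := h2 0 (Nat.zero_le _)
    simpa using this
  · have := h2 0
    simpa using this

lemma reach_step {x R : ℝ} {n m : ℕ} (hC : C n = m) (hn : (n : ℝ) < x) (h : Reach x R n) :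
    Reach x R m := by
  rcases h with ⟨i, h1, h2⟩ | h2
  · rcases i with _ | i
    · rw [Function.iterate_zero, id_eq] at h1
      linarith
    · refine Or.inl ⟨i, ?_, ?_⟩
      · rw [Function.iterate_succ_apply, hC] at h1
        exact h1
      · intro j hj
        have h3 := h2 (j + 1) (by omega)
        rw [Function.iterate_succ_apply, hC] at h3
        exact h3
  · refine Or.inr ?_
    intro j
    have h3 := h2 (j + 1)
    rw [Function.iterate_succ_apply, hC] at h3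
    exact h3

lemma card_split_le (k T : ℕ) (hk : 0 < k) (p : ℕ → ℕ → Prop) (q : ℕ → Prop)
    [∀ j, DecidablePred (p j)] [DecidablePred q]
    (h : ∀ j, j < k → ∀ s, k * s + j < T → q (k * s + j) → p j s) :
    ((range T).filter q).card ≤
      ∑ j ∈ range k, ((range ((T + k - 1 - j) / k)).filter (p j)).card := by
  rw [← Finset.card_sigma]
  refine Finset.card_le_card_of_injOn (fun s => (⟨s % k, s / k⟩ : Σ _ : ℕ, ℕ)) ?_ ?_
  · intro s hs
    simp only [Finset.coe_sigma, Finset.mem_coe, Finset.coe_range, Set.mem_sigma_iff, Set.mem_Iio,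
      Finset.mem_filter, Finset.mem_range, Finset.coe_filter, Set.mem_setOf_eq] at hs ⊢
    obtain ⟨h1, h2⟩ := hs
    have e := Nat.div_add_mod s k
    have hm := Nat.mod_lt s hk
    refine ⟨hm, ?_, ?_⟩
    · have h3 : s / k + 1 ≤ (T + k - 1 - s % k) / k := by
        rw [Nat.le_div_iff_mul_le hk]
        have h4 : (s / k + 1) * k = k * (s / k) + k := by ring
        rw [h4]
        omega
      omega
    · refine h _ hm _ ?_ ?_
      · rw [e]; exact h1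
      · rw [e]; exact h2
  · intro a _ b _ hab
    simp only [Sigma.mk.injEq, heq_eq_eq] at hab
    obtain ⟨h1, h2⟩ := hab
    rw [← Nat.div_add_mod a k, ← Nat.div_add_mod b k, h1, h2]

lemma NU_even (A Q : ℕ) (x R : ℝ) (T : ℕ) (hA : A % 2 = 0)
    (hx : ∀ s, s < T → ((A + 6 * Q * s : ℕ) : ℝ) < x) :
    NU A Q x R T ≤ NU (A / 2) Q x R ((T + 1) / 2) + NU (A / 2 + 3 * Q) Q x R (T / 2) := by
  classical
  have h := card_split_le 2 T (by norm_num)
    (fun j s => Reach x R (A / 2 + 3 * Q * j + 6 * Q * s)) (fun s => Reach x R (A + 6 * Q * s))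
    (by
      intro j hj s hs hb
      refine reach_step ?_ (hx _ hs) hb
      have h1 : A = 2 * (A / 2) := by omega
      have h2 : A + 6 * Q * (2 * s + j) = 2 * (A / 2 + 3 * Q * j + 6 * Q * s) := by
        calc A + 6 * Q * (2 * s + j) = 2 * (A / 2) + 6 * Q * (2 * s + j) := by rw [← h1]
          _ = _ := by ring
      rw [h2]
      unfold C
      rw [if_pos (by omega)]
      omega)
  rw [Finset.sum_range_succ, Finset.sum_range_one] at h
  have e0 : (T + 2 - 1 - 0) / 2 = (T + 1) / 2 := by omega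
  have e1 : (T + 2 - 1 - 1) / 2 = T / 2 := by omega
  rw [e0, e1] at h
  simp only [Nat.mul_zero, Nat.add_zero, Nat.mul_one] at h
  unfold NU
  refine le_trans (le_of_eq ?_) (h.trans (le_of_eq ?_))
  · rfl
  · rfl

lemma NU_three (A Q : ℕ) (x R : ℝ) (T : ℕ) (hA : A % 6 = 3)
    (hx : ∀ s, s < T → ((A + 6 * Q * s : ℕ) : ℝ) < x) :
    NU A Q x R T ≤ NU (A / 3) Q x R ((T + 2) / 3) + NU (A / 3 + 2 * Q) Q x R ((T + 1) / 3) +
      NU (A / 3 + 4 * Q) Q x R (T / 3) := by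
  classical
  have h := card_split_le 3 T (by norm_num)
    (fun j s => Reach x R (A / 3 + 2 * Q * j + 6 * Q * s)) (fun s => Reach x R (A + 6 * Q * s))
    (by
      intro j hj s hs hb
      refine reach_step ?_ (hx _ hs) hb
      have h1 : A = 3 * (A / 3) := by omega
      have h2 : A + 6 * Q * (3 * s + j) = 3 * (A / 3 + 2 * Q * j + 6 * Q * s) := by
        calc A + 6 * Q * (3 * s + j) = 3 * (A / 3) + 6 * Q * (3 * s + j) := by rw [← h1]
          _ = _ := by ring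
      have h3 : (A + 6 * Q * (3 * s + j)) % 2 = 1 := by
        have : A + 6 * Q * (3 * s + j) = A + 2 * (3 * Q * (3 * s + j)) := by ring
        rw [this]
        omega
      rw [h2] at h3 ⊢
      unfold C
      rw [if_neg (by omega), if_pos (by omega)]
      omega)
  rw [Finset.sum_range_succ, Finset.sum_range_succ, Finset.sum_range_one] at h
  have e0 : (T + 3 - 1 - 0) / 3 = (T + 2) / 3 := by omega
  have e1 : (T + 3 - 1 - 1) / 3 = (T + 1) / 3 := by omega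
  have e2 : (T + 3 - 1 - 2) / 3 = T / 3 := by omega
  rw [e0, e1, e2] at h
  have e : ∀ x : ℕ, 2 * x * 2 = 4 * x := fun x => by ring
  simp only [Nat.mul_zero, Nat.add_zero, Nat.mul_one, e] at h
  unfold NU
  refine le_trans (le_of_eq ?_) (h.trans (le_of_eq ?_))
  · rfl
  · rfl

lemma NU_five (A Q : ℕ) (x R : ℝ) (T : ℕ) (hA : A % 6 = 1 ∨ A % 6 = 5)
    (hx : ∀ s, s < T → ((A + 6 * Q * s : ℕ) : ℝ) < x) :
    NU A Q x R T ≤ NU (5 * A + 1) (5 * Q) x R T := by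
  classical
  unfold NU
  refine Finset.card_le_card ?_
  intro s hs
  rw [Finset.mem_filter] at hs ⊢
  refine ⟨hs.1, reach_step ?_ (hx _ (Finset.mem_range.mp hs.1)) hs.2⟩
  unfold C
  rw [if_neg ?_, if_neg ?_]
  · ring
  · have : A + 6 * Q * s = A + 3 * (2 * Q * s) := by ring
    rw [this]
    omega
  · have : A + 6 * Q * s = A + 2 * (3 * Q * s) := by ring
    rw [this]
    omega

lemma NU_le (A Q : ℕ) (x R : ℝ) (T : ℕ) : NU A Q x R T ≤ T := by
  classical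
  unfold NU
  refine (Finset.card_filter_le _ _).trans ?_
  rw [Finset.card_range]

lemma NU_zero (A Q : ℕ) (x R : ℝ) (T : ℕ)
    (hR : ∀ s, s < T → ((A + 6 * Q * s : ℕ) : ℝ) < R) : NU A Q x R T = 0 := by
  classical
  unfold NU
  rw [Finset.card_eq_zero, Finset.filter_eq_empty_iff]
  intro s hs h
  have h1 := reach_ge h
  have h2 := hR s (Finset.mem_range.mp hs)
  linarith

/-- The comparison function. -/
noncomputable def G (θ B v u x R y T : ℝ) : ℝ :=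
  v * T * (y / x) ^ θ + B * u * T ^ (43 / 50 : ℝ) * (y / R)

lemma G_add (θ B v u v' u' x R y T : ℝ) :
    G θ B (v + v') (u + u') x R y T = G θ B v u x R y T + G θ B v' u' x R y T := by
  unfold G
  ring

lemma G_mono {θ B v u x R y T y' T' : ℝ} (hθ : 0 ≤ θ) (hB : 0 ≤ B) (hv : 0 ≤ v) (hu : 0 ≤ u)
    (hx : 0 < x) (hR : 0 < R) (hy : 0 ≤ y) (hT : 0 ≤ T) (hyy : y ≤ y') (hTT : T ≤ T') :
    G θ B v u x R y T ≤ G θ B v u x R y' T' := by
  unfold G
  have h1 : (y / x) ^ θ ≤ (y' / x) ^ θ :=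
    Real.rpow_le_rpow (by positivity) (div_le_div_of_nonneg_right hyy hx.le) hθ
  have h2 : T ^ (43 / 50 : ℝ) ≤ T' ^ (43 / 50 : ℝ) :=
    Real.rpow_le_rpow hT hTT (by norm_num)
  have h3 : y / R ≤ y' / R := div_le_div_of_nonneg_right hyy hR.le
  have h4 : v * T ≤ v * T' := mul_le_mul_of_nonneg_left hTT hv
  have h5 : B * u * T ^ (43 / 50 : ℝ) ≤ B * u * T' ^ (43 / 50 : ℝ) :=
    mul_le_mul_of_nonneg_left h2 (mul_nonneg hB hu)
  have h6 : 0 ≤ (y / x) ^ θ := Real.rpow_nonneg (by positivity) _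
  have h7 : 0 ≤ v * T' := mul_nonneg hv (hT.trans hTT)
  have h8 : 0 ≤ y / R := by positivity
  have h9 : 0 ≤ B * u * T' ^ (43 / 50 : ℝ) :=
    mul_nonneg (mul_nonneg hB hu) (Real.rpow_nonneg (hT.trans hTT) _)
  exact add_le_add (mul_le_mul h4 h1 h6 h7) (mul_le_mul h5 h3 h8 h9)

lemma G_nonneg {θ B v u x R y T : ℝ} (hB : 0 ≤ B) (hv : 0 ≤ v) (hu : 0 ≤ u)
    (hx : 0 < x) (hR : 0 < R) (hy : 0 ≤ y) (hT : 0 ≤ T) : 0 ≤ G θ B v u x R y T := by
  unfold G
  positivity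

lemma stepU {θ B : ℝ} (hθ1 : 1 ≤ θ) (hθ3 : θ ≤ 3) (hB : 0 ≤ B) {k T : ℕ} (hk : k = 2 ∨ k = 3)
    (hT : 200000 ≤ T) {x R y : ℝ} (hx : 0 < x) (hR : 0 < R) (hRy : R ≤ y) (hyx : y ≤ 2 * x)
    {v u VS US : ℝ} (hv0 : 0 ≤ v) (hBη : 16 * v ≤ B * (1 / 10000)) (hUS : 0 ≤ US)
    (hv : v = (k : ℝ) ^ (-θ) * VS / k)
    (hu : (k : ℝ) ^ (-(43 / 50) : ℝ) * US / k * (1 + 1 / 100000) + 1 / 10000 ≤ u) :
    G θ B VS US x R (y / k * (1 + 1 / (2 * R))) ((T + (k - 1)) / k) ≤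
      (1 + 1 / (2 * R)) ^ θ * G θ B v u x R y T := by
  have hk2 : (2 : ℝ) ≤ k := by
    rcases hk with h | h <;> rw [h] <;> norm_num
  have hk3 : (k : ℝ) ≤ 3 := by
    rcases hk with h | h <;> rw [h] <;> norm_num
  have hk0 : (0 : ℝ) < k := by linarith
  have hT1 : (200000 : ℝ) ≤ T := by exact_mod_cast hT
  have hT0 : (0 : ℝ) < T := by linarith
  have hy0 : 0 < y := by linarith
  set z : ℝ := 1 + 1 / (2 * R) with hz
  have hz1 : 1 ≤ z := by
    rw [hz]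
    have : 0 < 1 / (2 * R) := by positivity
    linarith
  have hz0 : 0 < z := by linarith
  have hzθ : z ≤ z ^ θ := by
    calc z = z ^ (1 : ℝ) := (Real.rpow_one z).symm
      _ ≤ z ^ θ := Real.rpow_le_rpow_of_exponent_le hz1 hθ1
  have hzθ0 : 0 < z ^ θ := Real.rpow_pos_of_pos hz0 _
  -- first part
  have e1 : (y / k * z / x) ^ θ = (y / x) ^ θ * (k : ℝ) ^ (-θ) * z ^ θ := by
    have : y / k * z / x = (y / x) * (1 / k) * z := by
      field_simp
    rw [this, Real.mul_rpow (by positivity) hz0.le, Real.mul_rpow (by positivity) (by positivity)]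
    congr 2
    rw [one_div, Real.inv_rpow hk0.le, Real.rpow_neg hk0.le]
  have hyx2 : (y / x) ^ θ ≤ 8 := by
    have h1 : y / x ≤ 2 := by
      rw [div_le_iff₀ hx]
      exact hyx
    calc (y / x) ^ θ ≤ (2 : ℝ) ^ θ := Real.rpow_le_rpow (by positivity) h1 (by linarith)
      _ ≤ (2 : ℝ) ^ (3 : ℝ) := Real.rpow_le_rpow_of_exponent_le (by norm_num) hθ3
      _ = 8 := by norm_num
  have hyx0 : 0 ≤ (y / x) ^ θ := Real.rpow_nonneg (by positivity) _
  have p1 : VS * ((T + (k - 1)) / k) * (y / k * z / x) ^ θ ≤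
      z ^ θ * (v * T * (y / x) ^ θ + 16 * v) := by
    have h1 : VS * ((T + (k - 1)) / k) * (y / k * z / x) ^ θ =
        z ^ θ * (v * (T + (k - 1)) * (y / x) ^ θ) := by
      rw [e1, hv]
      field_simp
    rw [h1]
    refine mul_le_mul_of_nonneg_left ?_ hzθ0.le
    have h2 : v * (T + (k - 1)) * (y / x) ^ θ =
        v * T * (y / x) ^ θ + v * (k - 1) * (y / x) ^ θ := by ring
    rw [h2]
    have h3 : v * (k - 1) * (y / x) ^ θ ≤ v * 2 * 8 := by
      refine mul_le_mul ?_ hyx2 hyx0 (by linarith)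
      exact mul_le_mul_of_nonneg_left (by linarith) hv0
    linarith
  -- second part
  have q1 : ((T + (k - 1)) / k : ℝ) ^ (43 / 50 : ℝ) ≤
      (T : ℝ) ^ (43 / 50 : ℝ) * (1 + 1 / 100000) * (k : ℝ) ^ (-(43 / 50) : ℝ) := by
    have h0 : (0 : ℝ) ≤ T + (k - 1) := by linarith
    rw [Real.div_rpow h0 hk0.le, Real.rpow_neg hk0.le, ← div_eq_mul_inv]
    refine div_le_div_of_nonneg_right ?_ (Real.rpow_nonneg hk0.le _)
    have h1 : (T : ℝ) + (k - 1) ≤ T * (1 + 1 / 100000) := by nlinarith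
    calc ((T : ℝ) + (k - 1)) ^ (43 / 50 : ℝ) ≤ (T * (1 + 1 / 100000)) ^ (43 / 50 : ℝ) :=
          Real.rpow_le_rpow h0 h1 (by norm_num)
      _ = (T : ℝ) ^ (43 / 50 : ℝ) * (1 + 1 / 100000) ^ (43 / 50 : ℝ) :=
          Real.mul_rpow hT0.le (by norm_num)
      _ ≤ (T : ℝ) ^ (43 / 50 : ℝ) * (1 + 1 / 100000) := by
          refine mul_le_mul_of_nonneg_left ?_ (Real.rpow_nonneg hT0.le _)
          calc ((1 : ℝ) + 1 / 100000) ^ (43 / 50 : ℝ) ≤ (1 + 1 / 100000) ^ (1 : ℝ) :=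
                Real.rpow_le_rpow_of_exponent_le (by norm_num) (by norm_num)
            _ = 1 + 1 / 100000 := Real.rpow_one _
  have hTp0 : 1 ≤ (T : ℝ) ^ (43 / 50 : ℝ) := Real.one_le_rpow (by linarith) (by norm_num)
  have hyR1 : 1 ≤ y / R := by
    rw [one_le_div hR]
    exact hRy
  have p2 : B * US * ((T + (k - 1)) / k : ℝ) ^ (43 / 50 : ℝ) * (y / k * z / R) ≤
      z ^ θ * (B * (u - 1 / 10000) * (T : ℝ) ^ (43 / 50 : ℝ) * (y / R)) := by
    have hBU : 0 ≤ B * US := mul_nonneg hB hUS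
    have hkp : 0 < (k : ℝ) ^ (-(43 / 50) : ℝ) := Real.rpow_pos_of_pos hk0 _
    calc B * US * ((T + (k - 1)) / k : ℝ) ^ (43 / 50 : ℝ) * (y / k * z / R)
        ≤ B * US * ((T : ℝ) ^ (43 / 50 : ℝ) * (1 + 1 / 100000) * (k : ℝ) ^ (-(43 / 50) : ℝ)) *
          (y / k * z / R) :=
          mul_le_mul_of_nonneg_right (mul_le_mul_of_nonneg_left q1 hBU) (by positivity)
      _ = z * (B * ((k : ℝ) ^ (-(43 / 50) : ℝ) * US / k * (1 + 1 / 100000)) *
          (T : ℝ) ^ (43 / 50 : ℝ) * (y / R)) := by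
          field_simp
      _ ≤ z ^ θ * (B * ((k : ℝ) ^ (-(43 / 50) : ℝ) * US / k * (1 + 1 / 100000)) *
          (T : ℝ) ^ (43 / 50 : ℝ) * (y / R)) :=
          mul_le_mul_of_nonneg_right hzθ (by positivity)
      _ ≤ z ^ θ * (B * (u - 1 / 10000) * (T : ℝ) ^ (43 / 50 : ℝ) * (y / R)) := by
          refine mul_le_mul_of_nonneg_left ?_ hzθ0.le
          have h7 : (k : ℝ) ^ (-(43 / 50) : ℝ) * US / k * (1 + 1 / 100000) ≤ u - 1 / 10000 := by
            linarith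
          exact mul_le_mul_of_nonneg_right (mul_le_mul_of_nonneg_right
            (mul_le_mul_of_nonneg_left h7 hB) (by positivity)) (by positivity)
  have p3 : 16 * v ≤ B * (1 / 10000) * (T : ℝ) ^ (43 / 50 : ℝ) * (y / R) := by
    have h0 : 0 ≤ B * (1 / 10000) := by positivity
    have h1 : B * (1 / 10000) ≤ B * (1 / 10000) * (T : ℝ) ^ (43 / 50 : ℝ) := by
      nlinarith
    have h2 : B * (1 / 10000) * (T : ℝ) ^ (43 / 50 : ℝ) ≤
        B * (1 / 10000) * (T : ℝ) ^ (43 / 50 : ℝ) * (y / R) := by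
      have : 0 ≤ B * (1 / 10000) * (T : ℝ) ^ (43 / 50 : ℝ) := by positivity
      nlinarith
    linarith
  unfold G
  calc VS * ((T + (k - 1)) / k) * (y / k * z / x) ^ θ +
      B * US * ((T + (k - 1)) / k : ℝ) ^ (43 / 50 : ℝ) * (y / k * z / R)
      ≤ z ^ θ * (v * T * (y / x) ^ θ + 16 * v) +
        z ^ θ * (B * (u - 1 / 10000) * (T : ℝ) ^ (43 / 50 : ℝ) * (y / R)) := add_le_add p1 p2
    _ = z ^ θ * (v * T * (y / x) ^ θ + B * u * (T : ℝ) ^ (43 / 50 : ℝ) * (y / R) +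
        (16 * v - B * (1 / 10000) * (T : ℝ) ^ (43 / 50 : ℝ) * (y / R))) := by ring
    _ ≤ z ^ θ * (v * T * (y / x) ^ θ + B * u * (T : ℝ) ^ (43 / 50 : ℝ) * (y / R)) := by
        refine mul_le_mul_of_nonneg_left ?_ hzθ0.le
        linarith

/-- The constants of the comparison argument. -/
structure GoodU (θ B : ℝ) (v u : ℕ → ℝ) : Prop where
  hθ1 : 1 ≤ θ
  hθ3 : θ ≤ 3
  hB : 0 ≤ B
  hBu : ∀ r, r < 6 → 200000 ≤ B * u r
  hBη : ∀ r, r < 6 → 16 * v r ≤ B * (1 / 10000)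
  v1le : ∀ r, r < 6 → 1 ≤ v r
  upos : ∀ r, r < 6 → 0 < u r
  v0 : v 0 = (2 : ℝ) ^ (-θ) * (v 0 + v 3) / 2
  v1 : v 1 = (5 : ℝ) ^ θ * v 0
  v2 : v 2 = (2 : ℝ) ^ (-θ) * (v 1 + v 4) / 2
  v3 : v 3 = (3 : ℝ) ^ (-θ) * (v 1 + v 3 + v 5) / 3
  v4 : v 4 = (2 : ℝ) ^ (-θ) * (v 2 + v 5) / 2
  v5 : v 5 = (5 : ℝ) ^ θ * v 2
  u0 : (2 : ℝ) ^ (-(43 / 50) : ℝ) * (u 0 + u 3) / 2 * (1 + 1 / 100000) + 1 / 10000 ≤ u 0
  u1 : 5 * u 0 ≤ u 1
  u2 : (2 : ℝ) ^ (-(43 / 50) : ℝ) * (u 1 + u 4) / 2 * (1 + 1 / 100000) + 1 / 10000 ≤ u 2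
  u3 : (3 : ℝ) ^ (-(43 / 50) : ℝ) * (u 1 + u 3 + u 5) / 3 * (1 + 1 / 100000) + 1 / 10000 ≤ u 3
  u4 : (2 : ℝ) ^ (-(43 / 50) : ℝ) * (u 2 + u 5) / 2 * (1 + 1 / 100000) + 1 / 10000 ≤ u 4
  u5 : 5 * u 2 ≤ u 5

end Pool.Agent.H12.EU
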