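import Pool.Agent.H12.EU.Up

/-!
The induction for the upper bound.
-/

namespace Pool.Agent.H12.EU

open Pool.Agent.H83.EX Finset

lemma baseU {θ B : ℝ} {v u : ℕ → ℝ} (hG : GoodU θ B v u) {x R : ℝ} (hx : 1 / 2 ≤ x) (hR : 0 < R)
    (m T A Q : ℕ) (Y : ℝ) (hY : 0 ≤ Y)
    (hel : ∀ s, s < T → ((A + 6 * Q * s : ℕ) : ℝ) ≤ Y)
    (hc : Y < R ∨ x ≤ Y ∨ T < 200000) :
    (NU A Q x R T : ℝ) ≤ ((1 + 1 / (2 * R)) ^ θ) ^ m *
      G θ B (v (A % 6)) (u (A % 6)) x R (Y + 1 / 4) T := by
  have hr : A % 6 < 6 := Nat.mod_lt _ (by norm_num)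
  have hx0 : 0 < x := by linarith
  have hv1 := hG.v1le _ hr
  have hu0 := hG.upos _ hr
  have hθ1 := hG.hθ1
  have hB := hG.hB
  have hT0 : (0 : ℝ) ≤ T := Nat.cast_nonneg T
  have hG0 : 0 ≤ G θ B (v (A % 6)) (u (A % 6)) x R (Y + 1 / 4) T :=
    G_nonneg hB (by linarith) hu0.le hx0 hR (by linarith) hT0
  have hz : 1 ≤ (1 + 1 / (2 * R)) ^ θ := by
    have : 0 < 1 / (2 * R) := by positivity
    exact Real.one_le_rpow (by linarith) (by linarith)
  have hzm : 1 ≤ ((1 + 1 / (2 * R)) ^ θ) ^ m := one_le_pow₀ hz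
  have hGz : G θ B (v (A % 6)) (u (A % 6)) x R (Y + 1 / 4) T ≤ ((1 + 1 / (2 * R)) ^ θ) ^ m *
      G θ B (v (A % 6)) (u (A % 6)) x R (Y + 1 / 4) T := by
    nlinarith
  refine le_trans ?_ hGz
  by_cases h1 : Y < R
  · rw [NU_zero A Q x R T (fun s hs => (hel s hs).trans_lt h1)]
    simpa using hG0
  · have h1' : R ≤ Y := not_lt.mp h1
    have hNT : (NU A Q x R T : ℝ) ≤ T := by exact_mod_cast NU_le A Q x R T
    have hp0 : 0 ≤ (T : ℝ) ^ (43 / 50 : ℝ) := Real.rpow_nonneg hT0 _
    have hq0 : 0 ≤ ((Y + 1 / 4) / x) ^ θ := Real.rpow_nonneg (by positivity) _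
    rcases hc with h2 | h2 | h2
    · exact absurd h2 h1
    · refine hNT.trans ?_
      unfold G
      have h3 : 1 ≤ ((Y + 1 / 4) / x) ^ θ := by
        refine Real.one_le_rpow ?_ (by linarith)
        rw [one_le_div hx0]
        linarith
      have h4 : 0 ≤ B * u (A % 6) * (T : ℝ) ^ (43 / 50 : ℝ) * ((Y + 1 / 4) / R) := by
        positivity
      have h5 : (T : ℝ) ≤ v (A % 6) * T := by nlinarith
      have h6 : v (A % 6) * T ≤ v (A % 6) * T * ((Y + 1 / 4) / x) ^ θ := by
        have : 0 ≤ v (A % 6) * T := by positivity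
        nlinarith
      linarith
    · rcases Nat.eq_zero_or_pos T with hT | hT
      · subst hT
        refine hNT.trans ?_
        simpa using hG0
      · refine hNT.trans ?_
        have hT1 : (1 : ℝ) ≤ T := by exact_mod_cast hT
        have hT2 : (T : ℝ) ≤ 200000 := by exact_mod_cast h2.le
        have h3 := hG.hBu _ hr
        have h4 : 1 ≤ (T : ℝ) ^ (43 / 50 : ℝ) := Real.one_le_rpow hT1 (by norm_num)
        have h5 : 1 ≤ (Y + 1 / 4) / R := by
          rw [one_le_div hR]
          linarith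
        have hBu0 : 0 ≤ B * u (A % 6) := by positivity
        have h6 : B * u (A % 6) ≤ B * u (A % 6) * (T : ℝ) ^ (43 / 50 : ℝ) := by nlinarith
        have h7 : B * u (A % 6) * (T : ℝ) ^ (43 / 50 : ℝ) ≤
            B * u (A % 6) * (T : ℝ) ^ (43 / 50 : ℝ) * ((Y + 1 / 4) / R) := by
          have : 0 ≤ B * u (A % 6) * (T : ℝ) ^ (43 / 50 : ℝ) := by positivity
          nlinarith
        have h8 : 0 ≤ v (A % 6) * T * ((Y + 1 / 4) / x) ^ θ := by
          have : 0 ≤ v (A % 6) := by linarith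
          positivity
        unfold G
        linarith

lemma childU {θ B : ℝ} {v u : ℕ → ℝ} (hG : GoodU θ B v u) {x R : ℝ} (hx : 0 < x) (hR : 0 < R)
    {k T T' : ℕ} (hk : k = 2 ∨ k = 3) (hTT : (T' : ℝ) * k ≤ T + (k - 1)) {Y : ℝ} (hY : R ≤ Y)
    {r : ℕ} (hr : r < 6) :
    G θ B (v r) (u r) x R (Y / k + 1 / 4) T' ≤
      G θ B (v r) (u r) x R ((Y + 1 / 4) / k * (1 + 1 / (2 * R))) ((T + (k - 1)) / k) := by
  have hk2 : (2 : ℝ) ≤ k := by
    rcases hk with h | h <;> rw [h] <;> norm_num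
  have hk3 : (k : ℝ) ≤ 3 := by
    rcases hk with h | h <;> rw [h] <;> norm_num
  have hk0 : (0 : ℝ) < k := by linarith
  have hv1 := hG.v1le _ hr
  refine G_mono (by linarith [hG.hθ1]) hG.hB (by linarith) (hG.upos _ hr).le hx hR ?_
    (Nat.cast_nonneg _) ?_ ?_
  · have : 0 ≤ Y / k := div_nonneg (by linarith) hk0.le
    linarith
  · have e : (Y + 1 / 4) / k * (1 + 1 / (2 * R)) =
        Y / k + 1 / 4 / k + (Y + 1 / 4) / R * (1 / (2 * k)) := by
      field_simp
    rw [e]
    have h1 : 1 ≤ (Y + 1 / 4) / R := by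
      rw [one_le_div hR]
      linarith
    have h2 : 0 < 1 / (2 * (k : ℝ)) := by positivity
    have h3 : 1 / (2 * (k : ℝ)) ≤ (Y + 1 / 4) / R * (1 / (2 * k)) := by nlinarith
    have h4 : (1 : ℝ) / 4 ≤ 1 / 4 / k + 1 / (2 * k) := by
      have : (1 : ℝ) / 4 / k + 1 / (2 * k) = 3 / 4 / k := by
        field_simp
        norm_num
      rw [this, le_div_iff₀ hk0]
      linarith
    linarith
  · rw [le_div_iff₀ hk0]
    exact hTT

theorem mainU {θ B : ℝ} {v u : ℕ → ℝ} (hG : GoodU θ B v u) {x R : ℝ} (hx : 1 / 2 ≤ x)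
    (hR : 0 < R) :
    ∀ (m T : ℕ), T ≤ 2 ^ m → ∀ (A Q : ℕ) (Y : ℝ), Q % 2 = 1 → Q % 3 ≠ 0 → 0 ≤ Y →
      (∀ s, s < T → ((A + 6 * Q * s : ℕ) : ℝ) ≤ Y) →
      (NU A Q x R T : ℝ) ≤ ((1 + 1 / (2 * R)) ^ θ) ^ m *
        G θ B (v (A % 6)) (u (A % 6)) x R (Y + 1 / 4) T := by
  have hx0 : 0 < x := by linarith
  have hθ1 := hG.hθ1
  have hB := hG.hB
  set z : ℝ := (1 + 1 / (2 * R)) ^ θ with hz
  have hz0 : 0 < z := by positivity
  -- the step for residues other than 1, 5 gives the step for all residues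
  have ext : ∀ (m T : ℕ), (∀ (A Q : ℕ) (Y : ℝ), Q % 2 = 1 → Q % 3 ≠ 0 → 0 ≤ Y →
      A % 6 ≠ 1 → A % 6 ≠ 5 → (∀ s, s < T → ((A + 6 * Q * s : ℕ) : ℝ) ≤ Y) →
      (NU A Q x R T : ℝ) ≤ z ^ m * G θ B (v (A % 6)) (u (A % 6)) x R (Y + 1 / 4) T) →
      ∀ (A Q : ℕ) (Y : ℝ), Q % 2 = 1 → Q % 3 ≠ 0 → 0 ≤ Y →
      (∀ s, s < T → ((A + 6 * Q * s : ℕ) : ℝ) ≤ Y) →
      (NU A Q x R T : ℝ) ≤ z ^ m * G θ B (v (A % 6)) (u (A % 6)) x R (Y + 1 / 4) T := by
    intro m T low A Q Y hQ2 hQ3 hY hel
    by_cases hbase : Y < R ∨ x ≤ Y ∨ T < 200000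
    · exact baseU hG hx hR m T A Q Y hY hel hbase
    · push Not at hbase
      obtain ⟨hY1, hY2, _⟩ := hbase
      by_cases h15 : A % 6 = 1 ∨ A % 6 = 5
      · have hn := NU_five A Q x R T h15 (fun s hs => (hel s hs).trans_lt hY2)
        have hnr : (NU A Q x R T : ℝ) ≤ (NU (5 * A + 1) (5 * Q) x R T : ℝ) := by
          exact_mod_cast hn
        have i1 := low (5 * A + 1) (5 * Q) (5 * Y + 1) (by omega) (by omega) (by linarith)
          (by omega) (by omega) (by
            intro s hs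
            have h := hel s hs
            push_cast at h ⊢
            nlinarith)
        refine hnr.trans (i1.trans ?_)
        refine mul_le_mul_of_nonneg_left ?_ (by positivity)
        have conv : ∀ v' u' v'' u'' : ℝ, v'' = (5 : ℝ) ^ θ * v' → 5 * u' ≤ u'' →
            G θ B v' u' x R (5 * Y + 1 + 1 / 4) T ≤ G θ B v'' u'' x R (Y + 1 / 4) T := by
          intro v' u' v'' u'' g1 g2
          unfold G
          have e1 : ((5 * Y + 1 + 1 / 4) / x) ^ θ = (5 : ℝ) ^ θ * ((Y + 1 / 4) / x) ^ θ := by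
            have : (5 * Y + 1 + 1 / 4) / x = 5 * ((Y + 1 / 4) / x) := by ring
            rw [this, Real.mul_rpow (by norm_num) (by positivity)]
          have e2 : (5 * Y + 1 + 1 / 4) / R = 5 * ((Y + 1 / 4) / R) := by ring
          rw [e1, e2, g1]
          have h3 : 0 ≤ B * (T : ℝ) ^ (43 / 50 : ℝ) * ((Y + 1 / 4) / R) := by positivity
          have h4 := mul_le_mul_of_nonneg_left g2 h3
          nlinarith
        rcases h15 with h | h
        · have e : (5 * A + 1) % 6 = 0 := by omega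
          rw [e, h]
          exact conv _ _ _ _ hG.v1 hG.u1
        · have e : (5 * A + 1) % 6 = 2 := by omega
          rw [e, h]
          exact conv _ _ _ _ hG.v5 hG.u5
      · push Not at h15
        exact low A Q Y hQ2 hQ3 hY h15.1 h15.2 hel
  intro m
  induction m with
  | zero =>
    intro T hT A Q Y hQ2 hQ3 hY hel
    exact baseU hG hx hR 0 T A Q Y hY hel (Or.inr (Or.inr (by simp at hT; omega)))
  | succ m ih =>
    intro T hT
    refine ext (m + 1) T ?_
    intro A Q Y hQ2 hQ3 hY hA1 hA5 hel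
    by_cases hbase : Y < R ∨ x ≤ Y ∨ T < 200000
    · exact baseU hG hx hR (m + 1) T A Q Y hY hel hbase
    · push Not at hbase
      obtain ⟨hY1, hY2, hTbig⟩ := hbase
      have hr : A % 6 < 6 := Nat.mod_lt _ (by norm_num)
      have helx : ∀ s, s < T → ((A + 6 * Q * s : ℕ) : ℝ) < x :=
        fun s hs => (hel s hs).trans_lt hY2
      have hcase : A % 6 = 0 ∨ A % 6 = 2 ∨ A % 6 = 3 ∨ A % 6 = 4 := by omega
      have hyR : R ≤ Y + 1 / 4 := by linarith
      have hyx : Y + 1 / 4 ≤ 2 * x := by linarith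
      have hpow : 2 ^ (m + 1) = 2 * 2 ^ m := by ring
      have hzm : 0 < z ^ m := by positivity
      have ev : A % 2 = 0 → ∀ i j : ℕ, ((A / 2) % 6 = i ∧ (A / 2 + 3 * Q) % 6 = j ∨
          (A / 2) % 6 = j ∧ (A / 2 + 3 * Q) % 6 = i) → i < 6 → j < 6 →
          v (A % 6) = (2 : ℝ) ^ (-θ) * (v i + v j) / 2 →
          (2 : ℝ) ^ (-(43 / 50) : ℝ) * (u i + u j) / 2 * (1 + 1 / 100000) + 1 / 10000 ≤
            u (A % 6) →
          (NU A Q x R T : ℝ) ≤ z ^ (m + 1) *
            G θ B (v (A % 6)) (u (A % 6)) x R (Y + 1 / 4) T := by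
        intro hA2 i j hij hi hj hv hu
        have hn := NU_even A Q x R T hA2 helx
        have hnr : (NU A Q x R T : ℝ) ≤ (NU (A / 2) Q x R ((T + 1) / 2) : ℝ) +
            (NU (A / 2 + 3 * Q) Q x R (T / 2) : ℝ) := by
          exact_mod_cast hn
        have hA : A = 2 * (A / 2) := by omega
        have i1 := ih ((T + 1) / 2) (by omega) (A / 2) Q (Y / 2) hQ2 hQ3 (by linarith) (by
          intro s hs
          have h := hel (2 * s) (by omega)
          have e : A + 6 * Q * (2 * s) = 2 * (A / 2 + 6 * Q * s) := by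
            calc A + 6 * Q * (2 * s) = 2 * (A / 2) + 6 * Q * (2 * s) := by rw [← hA]
              _ = _ := by ring
          rw [e] at h
          push_cast at h ⊢
          linarith)
        have i2 := ih (T / 2) (by omega) (A / 2 + 3 * Q) Q (Y / 2) hQ2 hQ3 (by linarith) (by
          intro s hs
          have h := hel (2 * s + 1) (by omega)
          have e : A + 6 * Q * (2 * s + 1) = 2 * (A / 2 + 3 * Q + 6 * Q * s) := by
            calc A + 6 * Q * (2 * s + 1) = 2 * (A / 2) + 6 * Q * (2 * s + 1) := by rw [← hA]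
              _ = _ := by ring
          rw [e] at h
          push_cast at h ⊢
          linarith)
        have hst := stepU (k := 2) (T := T) (x := x) (R := R) (y := Y + 1 / 4)
          (v := v (A % 6)) (u := u (A % 6))
          (VS := v i + v j) (US := u i + u j) hθ1 hG.hθ3 hB (Or.inl rfl) hTbig hx0 hR hyR hyx
          (by linarith [hG.v1le _ hr]) (hG.hBη _ hr)
          (add_nonneg (hG.upos i hi).le (hG.upos j hj).le)
          (by push_cast; exact hv) (by push_cast; exact hu)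
        rw [G_add] at hst
        have c1 : ∀ r, r < 6 → G θ B (v r) (u r) x R (Y / 2 + 1 / 4) (((T + 1) / 2 : ℕ) : ℝ) ≤
            G θ B (v r) (u r) x R ((Y + 1 / 4) / (2 : ℕ) * (1 + 1 / (2 * R)))
              ((T + ((2 : ℕ) - 1)) / (2 : ℕ)) := by
          intro r hr6
          have h := childU hG hx0 hR (k := 2) (T := T) (T' := (T + 1) / 2) (Or.inl rfl) (by
            have : ((T + 1) / 2) * 2 ≤ T + 1 := by omega
            have h2 : ((((T + 1) / 2) * 2 : ℕ) : ℝ) ≤ ((T + 1 : ℕ) : ℝ) := by exact_mod_cast this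
            push_cast at h2 ⊢
            linarith) hY1 hr6
          push_cast at h ⊢
          exact h
        have c2 : ∀ r, r < 6 → G θ B (v r) (u r) x R (Y / 2 + 1 / 4) ((T / 2 : ℕ) : ℝ) ≤
            G θ B (v r) (u r) x R ((Y + 1 / 4) / (2 : ℕ) * (1 + 1 / (2 * R)))
              ((T + ((2 : ℕ) - 1)) / (2 : ℕ)) := by
          intro r hr6
          have h := childU hG hx0 hR (k := 2) (T := T) (T' := T / 2) (Or.inl rfl) (by
            have : (T / 2) * 2 ≤ T + 1 := by omega
            have h2 : (((T / 2) * 2 : ℕ) : ℝ) ≤ ((T + 1 : ℕ) : ℝ) := by exact_mod_cast this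
            push_cast at h2 ⊢
            linarith) hY1 hr6
          push_cast at h ⊢
          exact h
        have fin : ∀ a b : ℕ, a < 6 → b < 6 → (A / 2) % 6 = a → (A / 2 + 3 * Q) % 6 = b →
            G θ B (v a) (u a) x R ((Y + 1 / 4) / (2 : ℕ) * (1 + 1 / (2 * R)))
              ((T + ((2 : ℕ) - 1)) / (2 : ℕ)) +
            G θ B (v b) (u b) x R ((Y + 1 / 4) / (2 : ℕ) * (1 + 1 / (2 * R)))
              ((T + ((2 : ℕ) - 1)) / (2 : ℕ)) ≤
            (1 + 1 / (2 * R)) ^ θ * G θ B (v (A % 6)) (u (A % 6)) x R (Y + 1 / 4) T →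
            (NU A Q x R T : ℝ) ≤ z ^ (m + 1) *
            G θ B (v (A % 6)) (u (A % 6)) x R (Y + 1 / 4) T := by
          intro a b ha hb e1 e2 hs
          rw [e1] at i1
          rw [e2] at i2
          have k1 := mul_le_mul_of_nonneg_left (c1 a ha) hzm.le
          have k2 := mul_le_mul_of_nonneg_left (c2 b hb) hzm.le
          have k3 := mul_le_mul_of_nonneg_left hs hzm.le
          rw [← hz] at k3
          have e : z ^ (m + 1) * G θ B (v (A % 6)) (u (A % 6)) x R (Y + 1 / 4) T =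
              z ^ m * (z * G θ B (v (A % 6)) (u (A % 6)) x R (Y + 1 / 4) T) := by
            rw [pow_succ]
            ring
          rw [e]
          refine le_trans ?_ k3
          rw [mul_add]
          linarith
        rcases hij with ⟨e1, e2⟩ | ⟨e1, e2⟩
        · exact fin i j hi hj e1 e2 hst
        · refine fin j i hj hi e1 e2 ?_
          rw [add_comm]
          exact hst
      rcases hcase with h | h | h | h
      · refine ev (by omega) 0 3 (by omega) (by norm_num) (by norm_num) ?_ ?_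
        · rw [h]; exact hG.v0
        · rw [h]; exact hG.u0
      · refine ev (by omega) 1 4 (by omega) (by norm_num) (by norm_num) ?_ ?_
        · rw [h]; exact hG.v2
        · rw [h]; exact hG.u2
      · have hn := NU_three A Q x R T h helx
        have hnr : (NU A Q x R T : ℝ) ≤ (NU (A / 3) Q x R ((T + 2) / 3) : ℝ) +
            (NU (A / 3 + 2 * Q) Q x R ((T + 1) / 3) : ℝ) +
            (NU (A / 3 + 4 * Q) Q x R (T / 3) : ℝ) := by
          exact_mod_cast hn
        have hA : A = 3 * (A / 3) := by omega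
        have h2m : 1 ≤ 2 ^ m := Nat.one_le_two_pow
        have i1 := ih ((T + 2) / 3) (by omega) (A / 3) Q (Y / 3) hQ2 hQ3 (by linarith) (by
          intro s hs
          have h := hel (3 * s) (by omega)
          have e : A + 6 * Q * (3 * s) = 3 * (A / 3 + 6 * Q * s) := by
            calc A + 6 * Q * (3 * s) = 3 * (A / 3) + 6 * Q * (3 * s) := by rw [← hA]
              _ = _ := by ring
          rw [e] at h
          push_cast at h ⊢
          linarith)
        have i2 := ih ((T + 1) / 3) (by omega) (A / 3 + 2 * Q) Q (Y / 3) hQ2 hQ3 (by linarith) (by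
          intro s hs
          have h := hel (3 * s + 1) (by omega)
          have e : A + 6 * Q * (3 * s + 1) = 3 * (A / 3 + 2 * Q + 6 * Q * s) := by
            calc A + 6 * Q * (3 * s + 1) = 3 * (A / 3) + 6 * Q * (3 * s + 1) := by rw [← hA]
              _ = _ := by ring
          rw [e] at h
          push_cast at h ⊢
          linarith)
        have i3 := ih (T / 3) (by omega) (A / 3 + 4 * Q) Q (Y / 3) hQ2 hQ3 (by linarith) (by
          intro s hs
          have h := hel (3 * s + 2) (by omega)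
          have e : A + 6 * Q * (3 * s + 2) = 3 * (A / 3 + 4 * Q + 6 * Q * s) := by
            calc A + 6 * Q * (3 * s + 2) = 3 * (A / 3) + 6 * Q * (3 * s + 2) := by rw [← hA]
              _ = _ := by ring
          rw [e] at h
          push_cast at h ⊢
          linarith)
        have hst := stepU (k := 3) (T := T) (x := x) (R := R) (y := Y + 1 / 4)
          (v := v (A % 6)) (u := u (A % 6))
          (VS := v 1 + v 3 + v 5) (US := u 1 + u 3 + u 5) hθ1 hG.hθ3 hB (Or.inr rfl) hTbig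
          hx0 hR hyR hyx (by linarith [hG.v1le _ hr]) (hG.hBη _ hr)
          (add_nonneg (add_nonneg (hG.upos 1 (by norm_num)).le (hG.upos 3 (by norm_num)).le)
            (hG.upos 5 (by norm_num)).le)
          (by push_cast; rw [h]; exact hG.v3) (by push_cast; rw [h]; exact hG.u3)
        rw [G_add, G_add] at hst
        have cc : ∀ T' : ℕ, T' * 3 ≤ T + 2 → ∀ r, r < 6 →
            G θ B (v r) (u r) x R (Y / 3 + 1 / 4) (T' : ℝ) ≤
            G θ B (v r) (u r) x R ((Y + 1 / 4) / (3 : ℕ) * (1 + 1 / (2 * R)))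
              ((T + ((3 : ℕ) - 1)) / (3 : ℕ)) := by
          intro T' hT' r hr6
          have h := childU hG hx0 hR (k := 3) (T := T) (T' := T') (Or.inr rfl) (by
            have h2 : ((T' * 3 : ℕ) : ℝ) ≤ ((T + 2 : ℕ) : ℝ) := by exact_mod_cast hT'
            push_cast at h2 ⊢
            linarith) hY1 hr6
          push_cast at h ⊢
          exact h
        have fin : ∀ a b c : ℕ, a < 6 → b < 6 → c < 6 → (A / 3) % 6 = a →
            (A / 3 + 2 * Q) % 6 = b → (A / 3 + 4 * Q) % 6 = c →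
            G θ B (v a) (u a) x R ((Y + 1 / 4) / (3 : ℕ) * (1 + 1 / (2 * R)))
              ((T + ((3 : ℕ) - 1)) / (3 : ℕ)) +
            G θ B (v b) (u b) x R ((Y + 1 / 4) / (3 : ℕ) * (1 + 1 / (2 * R)))
              ((T + ((3 : ℕ) - 1)) / (3 : ℕ)) +
            G θ B (v c) (u c) x R ((Y + 1 / 4) / (3 : ℕ) * (1 + 1 / (2 * R)))
              ((T + ((3 : ℕ) - 1)) / (3 : ℕ)) ≤
            (1 + 1 / (2 * R)) ^ θ * G θ B (v (A % 6)) (u (A % 6)) x R (Y + 1 / 4) T →
            (NU A Q x R T : ℝ) ≤ z ^ (m + 1) *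
            G θ B (v (A % 6)) (u (A % 6)) x R (Y + 1 / 4) T := by
          intro a b c ha hb hc e1 e2 e3 hs
          rw [e1] at i1
          rw [e2] at i2
          rw [e3] at i3
          have k1 := mul_le_mul_of_nonneg_left (cc ((T + 2) / 3) (by omega) a ha) hzm.le
          have k2 := mul_le_mul_of_nonneg_left (cc ((T + 1) / 3) (by omega) b hb) hzm.le
          have k4 := mul_le_mul_of_nonneg_left (cc (T / 3) (by omega) c hc) hzm.le
          have k3 := mul_le_mul_of_nonneg_left hs hzm.le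
          rw [← hz] at k3
          have e : z ^ (m + 1) * G θ B (v (A % 6)) (u (A % 6)) x R (Y + 1 / 4) T =
              z ^ m * (z * G θ B (v (A % 6)) (u (A % 6)) x R (Y + 1 / 4) T) := by
            rw [pow_succ]
            ring
          rw [e]
          refine le_trans ?_ k3
          rw [mul_add, mul_add]
          linarith
        have hc := three_cases A Q h hQ2 hQ3
        rcases hc with ⟨e1, e2, e3⟩ | ⟨e1, e2, e3⟩ | ⟨e1, e2, e3⟩ | ⟨e1, e2, e3⟩ |
          ⟨e1, e2, e3⟩ | ⟨e1, e2, e3⟩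
        · exact fin 1 3 5 (by norm_num) (by norm_num) (by norm_num) e1 e2 e3 (by linarith)
        · exact fin 1 5 3 (by norm_num) (by norm_num) (by norm_num) e1 e2 e3 (by linarith)
        · exact fin 3 1 5 (by norm_num) (by norm_num) (by norm_num) e1 e2 e3 (by linarith)
        · exact fin 3 5 1 (by norm_num) (by norm_num) (by norm_num) e1 e2 e3 (by linarith)
        · exact fin 5 1 3 (by norm_num) (by norm_num) (by norm_num) e1 e2 e3 (by linarith)
        · exact fin 5 3 1 (by norm_num) (by norm_num) (by norm_num) e1 e2 e3 (by linarith)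
      · refine ev (by omega) 2 5 (by omega) (by norm_num) (by norm_num) ?_ ?_
        · rw [h]; exact hG.v4
        · rw [h]; exact hG.u4

end Pool.Agent.H12.EU
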